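import Pool.Agent.helper11.VN.Spec3b

/-!
# Row vn:BC2N (MP_07c750_an, project VN): Borel-Cantelli for one test function (adaptation of helper38/VQ/BC2)
-/

set_option autoImplicit false

open scoped MatrixGroups ContDiff Topology UpperHalfPlane ComplexConjugate ENNReal
open UpperHalfPlane MeasureTheory Filter Set

namespace Pool.Agent.VN

open Pool.Agent.RS Pool.Agent.VQ
open Pool.Agent.RPQ (CEig mean VV IsOp IsMul OProj wrd PJ nst mks MO Net Cl CkB PN upd Eqd)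

theorem BC2N_CkB {n : ℕ} {f : ℍ → ℝ} {a b : ℝ} (h : a ≤ b) (hf : CkB n f a) : CkB n f b :=
  fun g => (hf g).trans h

/-- summability -/
theorem BC2N_sum (i0 : ℕ) (S : ℕ → Set (ℕ × ℕ → ℝ)) (h : ∀ j : ℕ, PN (S j) ≤ ENNReal.ofReal (((i0 + 1 + j : ℕ) : ℝ) ^ (-2 : ℝ))) :
    ∑' i, PN (S i) ≠ ⊤ := by
  have hs : Summable fun j : ℕ => 1 / ((j + 1 : ℕ) : ℝ) ^ 2 :=
    (summable_nat_add_iff 1).2 (Real.summable_one_div_nat_pow.2 (by norm_num))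
  have h1 : ∀ j : ℕ, PN (S j) ≤ ENNReal.ofReal (1 / ((j + 1 : ℕ) : ℝ) ^ 2) := by
    intro j
    refine (h j).trans (ENNReal.ofReal_le_ofReal ?_)
    have hj : (0 : ℝ) < ((j + 1 : ℕ) : ℝ) := by positivity
    have hij : ((j + 1 : ℕ) : ℝ) ≤ ((i0 + 1 + j : ℕ) : ℝ) := by exact_mod_cast (by omega : j + 1 ≤ i0 + 1 + j)
    have hi : (0 : ℝ) < ((i0 + 1 + j : ℕ) : ℝ) := hj.trans_le hij
    rw [Real.rpow_neg hi.le, show (2 : ℝ) = ((2 : ℕ) : ℝ) by norm_num, Real.rpow_natCast, one_div]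
    exact inv_anti₀ (by positivity) (pow_le_pow_left₀ hj.le hij 2)
  have h2 : ∑' j : ℕ, ENNReal.ofReal (1 / ((j + 1 : ℕ) : ℝ) ^ 2) ≠ ⊤ := by
    rw [← ENNReal.ofReal_tsum_of_nonneg (fun i => by positivity) hs]
    exact ENNReal.ofReal_ne_top
  exact ne_top_of_le_ne_top h2 (ENNReal.tsum_le_tsum h1)

/-- `⌊μ⌋` and `μ` -/
theorem BC2N_floor (μ : ℝ) (hμ : 1 ≤ μ) : |Real.sqrt μ - Real.sqrt (⌊μ⌋₊ : ℕ)| ≤ Real.sqrt (⌊μ⌋₊ : ℕ) ^ (-(1 / 100) : ℝ) := by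
  have hμ0 : 0 ≤ μ := by linarith
  have h1 : ((⌊μ⌋₊ : ℕ) : ℝ) ≤ μ := Nat.floor_le hμ0
  have h2 : μ < (⌊μ⌋₊ : ℕ) + 1 := Nat.lt_floor_add_one μ
  have h3 : 1 ≤ ⌊μ⌋₊ := (Nat.one_le_floor_iff μ).2 hμ
  have h4 : (1 : ℝ) ≤ ((⌊μ⌋₊ : ℕ) : ℝ) := by exact_mod_cast h3
  have h5 : 1 ≤ Real.sqrt (⌊μ⌋₊ : ℕ) := Real.one_le_sqrt.2 h4
  have h6 : Real.sqrt (⌊μ⌋₊ : ℕ) ≤ Real.sqrt μ := Real.sqrt_le_sqrt h1
  rw [abs_of_nonneg (sub_nonneg.2 h6)]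
  have h7 : (Real.sqrt μ - Real.sqrt (⌊μ⌋₊ : ℕ)) * (Real.sqrt μ + Real.sqrt (⌊μ⌋₊ : ℕ)) ≤ 1 := by
    have e1 := Real.mul_self_sqrt hμ0
    have e2 := Real.mul_self_sqrt (Nat.cast_nonneg (α := ℝ) ⌊μ⌋₊)
    nlinarith
  have h8 : (Real.sqrt μ - Real.sqrt (⌊μ⌋₊ : ℕ)) * Real.sqrt (⌊μ⌋₊ : ℕ) ≤ 1 := by
    nlinarith [mul_nonneg (sub_nonneg.2 h6) (Real.sqrt_nonneg μ)]
  have h9 : Real.sqrt μ - Real.sqrt (⌊μ⌋₊ : ℕ) ≤ (Real.sqrt (⌊μ⌋₊ : ℕ))⁻¹ := by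
    rw [inv_eq_one_div, le_div_iff₀ (by linarith)]
    exact h8
  refine h9.trans ?_
  rw [← Real.rpow_neg_one]
  exact Real.rpow_le_rpow_of_exponent_le h5 (by norm_num)

theorem BC2N_zero (n : ℕ) (G : ℍ → ℝ) (s : ℝ) (hs : 0 ≤ s) : CkB n (fun z => G z - G z) s := by
  have h : (fun z : ℍ => G z - G z) = fun _ => 0 := by
    funext z
    rw [sub_self]
  rw [h]
  intro g
  refine le_trans (le_of_eq ?_) hs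
  have h0 : QU.onC (fun _ : ℍ => (0 : ℝ)) = fun _ => 0 := by
    funext w
    unfold QU.onC
    simp
  show ‖iteratedFDeriv ℝ n (QU.onC (fun _ : ℍ => (0 : ℝ))) (I : ℂ)‖ = 0
  rw [h0, iteratedFDeriv_fun_zero]
  simp

theorem BC2N_UWL {D : Dyn} {F : Set ℍ} {h : ℍ → ℝ} {e v0 C1 T0 E0 E1 : ℝ} (hE : E1 ≤ E0) (hU : UWLN D F h e v0 C1 T0 E0) :
    UWLN D F h e v0 C1 T0 E1 :=
  fun E γ h1 h2 => hU E γ (h1.trans hE) h2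

theorem BC2N_proof (hBC1N : BC1N_stmt) (hIDYN : IDYN_stmt) (hIUWN : IUWN_stmt) (hSEN : SEN_stmt) (hPON : PON_stmt) (hPCN : PCN_stmt)
    (hRSM : RPQ.RSM_stmt) : BC2N_stmt := by
  intro Γ F κ C0 k0 J p χ f0 hΓ hF hκ hFam hf0 hf1 h e hh he
  obtain ⟨hP, hone, -⟩ := hRSM
  have := hP
  obtain ⟨⟨b, hS1⟩, hS2⟩ := hSEN Γ κ C0 k0 J p χ f0 hΓ hFam hf0 hf1
  obtain ⟨B, hPot⟩ := hPON b
  have hkq : ∀ q : ℕ, 0 < 1 / (16 * ((q + 1 : ℕ) : ℝ)) := fun q => by positivity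
  choose v0 C1 hv0 hC1 hbad using fun q : ℕ => hBC1N Γ F κ C0 k0 J p χ f0 (1 / (16 * ((q + 1 : ℕ) : ℝ))) B hΓ hF hκ hFam hf0 hf1 (hkq q) h e hh he
  -- the conclusion for one triple of parameters
  have key : ∀ a : ℕ × ℕ × ℕ, ∀ᵐ ζ ∂PN, ∃ I1 : ℕ, ∀ i : ℕ, I1 ≤ i → ∃ (K : ℕ) (v : (ℕ × ℕ → ℝ) → ℕ × ℕ → ℝ),
      2 ^ K ≤ Real.sqrt i ∧ Real.sqrt i ≤ 2 ^ (K + 1) ∧ (∀ ζ q, |v ζ q| ≤ 1) ∧
      (∀ ζ : ℕ × ℕ → ℝ, (∀ q, |ζ q| ≤ 1) → ∀ q : ℕ × ℕ, q.1 ≤ 4 * K → q.1 ≠ K → q.2 < J q.1 → |v ζ q - ζ q| ≤ Real.sqrt i ^ (-10 : ℝ)) ∧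
      ((∀ q, |ζ q| ≤ 1) → PotN Γ (1 / (16 * ((a.1 + 1 : ℕ) : ℝ))) B (fun z => Real.exp (bN χ f0 K (v ζ) z)) →
        (∀ D : Dyn, OKN Γ (1 / (16 * ((a.1 + 1 : ℕ) : ℝ))) B D → D.U = (fun z => Real.exp (bN χ f0 K (v ζ) z)) →
        UWLN D F h (e / 8) (v0 a.1) (C1 a.1) ((a.2.1 + 1 : ℕ) : ℝ) (1 / ((a.2.2 : ℝ) + 1))) →
        ∀ (μ : ℝ) (φ : ℍ → ℂ), 0 < μ → |Real.sqrt μ - Real.sqrt i| ≤ Real.sqrt i ^ (-(1 / 100) : ℝ) →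
          CEig Γ (fun z => f0 z + rN χ ζ z) μ φ → |(∫ z in F, h z * ‖φ z‖ ^ 2) - mean F h * nn F φ| ≤ e * nn F φ) := by
    intro a
    obtain ⟨i0, hi0⟩ := hbad a.1 ((a.2.1 + 1 : ℕ) : ℝ) (1 / ((a.2.2 : ℝ) + 1)) (by push_cast; linarith [(Nat.cast_nonneg a.2.1 : (0 : ℝ) ≤ a.2.1)]) (by positivity)
    choose K v hKv using fun j : ℕ => hi0 (i0 + 1 + j) (by omega)
    have hae := ae_eventually_notMem (BC2N_sum i0 _ (fun j => (hKv j).2.2.2.2))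
    filter_upwards [hae] with ζ hζ
    obtain ⟨J1, hJ1⟩ := eventually_atTop.1 hζ
    refine ⟨i0 + 1 + J1, fun i hi => ?_⟩
    obtain ⟨j, rfl⟩ : ∃ j, i = i0 + 1 + j := ⟨i - (i0 + 1), by omega⟩
    refine ⟨K j, v j, (hKv j).1, (hKv j).2.1, (hKv j).2.2.1, (hKv j).2.2.2.1, ?_⟩
    intro h1 hpot h2 μ φ hμ1 hμ2 hμ3
    by_contra hcon
    rw [not_le] at hcon
    exact hJ1 j (by omega) ⟨h1, hpot, h2, μ, φ, hμ1, hμ2, hμ3, hcon⟩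
  filter_upwards [ae_all_iff.2 key, hone] with ζ hζ h1 hlap
  -- the dynamics of the limit potential
  have hSζ := hS1 ζ h1
  obtain ⟨q, s, hq, hs, hPG⟩ := hPot Γ (fun z => f0 z + rN χ ζ z) hΓ hSζ.1.1 hSζ.1.2.1 hSζ.1.2.2 hlap
  obtain ⟨q1, rfl⟩ : ∃ q1, q = q1 + 1 := ⟨q - 1, by omega⟩
  have hPζ := hPG (fun z => f0 z + rN χ ζ z) hSζ.1.1 hSζ.1.2.1 hSζ.1.2.2 (fun n _ => BC2N_zero n _ s hs.le)
  obtain ⟨D, hDU, hD⟩ := hIDYN Γ _ B _ hΓ hPζ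
  obtain ⟨T0, E0, s', hT0, hE0, hs', hUW⟩ := hIUWN Γ F _ B D h (e / 8) (v0 q1) (C1 q1) hΓ hF hD hh (by positivity) (hv0 q1) (hC1 q1)
  obtain ⟨q2, hq2⟩ := exists_nat_one_div_lt hE0
  obtain ⟨I1, hI1⟩ := hζ (q1, T0 - 1, q2)
  obtain ⟨Cp, hCp, hPCL'⟩ := hPCN (|b 0| + |b 1| + |b 2|) (by positivity)
  have hCp0 : 0 < Cp := by linarith
  have hm3 : 0 < min 1 (min s (s' / Cp)) := lt_min one_pos (lt_min hs (div_pos hs' hCp0))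
  obtain ⟨K0, hK0⟩ := hS2 (min 1 (min s (s' / Cp))) hm3
  -- the threshold
  refine ⟨max (max 1 ((I1 : ℝ) + 1)) ((2 : ℝ) ^ (2 * K0) + 2), lt_of_lt_of_le one_pos ((le_max_left _ _).trans (le_max_left _ _)), ?_⟩
  intro μ φ hμ hE
  have hμ1 : 1 ≤ μ := ((le_max_left _ _).trans (le_max_left _ _)).trans hμ
  have hμ2 : (I1 : ℝ) + 1 ≤ μ := ((le_max_right _ _).trans (le_max_left _ _)).trans hμ
  have hμ3 : (2 : ℝ) ^ (2 * K0) + 2 ≤ μ := (le_max_right _ _).trans hμ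
  have hfl : μ < (⌊μ⌋₊ : ℕ) + 1 := Nat.lt_floor_add_one μ
  have hi1 : I1 ≤ ⌊μ⌋₊ := Nat.le_floor (by linarith)
  have hi2 : (2 : ℝ) ^ (2 * K0) < ((⌊μ⌋₊ : ℕ) : ℝ) := by linarith
  have hi3 : (1 : ℝ) ≤ ((⌊μ⌋₊ : ℕ) : ℝ) := by
    have : (1 : ℝ) ≤ 2 ^ (2 * K0) := one_le_pow₀ (by norm_num)
    linarith
  obtain ⟨K, v, hK1, hK2, hv1, hv, hgood⟩ := hI1 ⌊μ⌋₊ hi1
  have hsq1 : 1 ≤ Real.sqrt (⌊μ⌋₊ : ℕ) := Real.one_le_sqrt.2 hi3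
  have hKK : K0 ≤ K := by
    have h3 : (2 : ℝ) ^ K0 < Real.sqrt (⌊μ⌋₊ : ℕ) := by
      rw [Real.lt_sqrt (by positivity), ← pow_mul, mul_comm K0 2]
      exact hi2
    have h4 : (2 : ℝ) ^ K0 < 2 ^ (K + 1) := lt_of_lt_of_le h3 hK2
    have h5 := (pow_lt_pow_iff_right₀ (by norm_num : (1 : ℝ) < 2)).1 h4
    omega
  have hm0 : 0 < Real.sqrt (⌊μ⌋₊ : ℕ) ^ (-10 : ℝ) := Real.rpow_pos_of_pos (by linarith) _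
  have hm1 : Real.sqrt (⌊μ⌋₊ : ℕ) ^ (-10 : ℝ) ≤ 1 / 2 ^ K := by
    have e1 : Real.sqrt (⌊μ⌋₊ : ℕ) ^ (-10 : ℝ) ≤ Real.sqrt (⌊μ⌋₊ : ℕ) ^ (-1 : ℝ) :=
      Real.rpow_le_rpow_of_exponent_le hsq1 (by norm_num)
    refine e1.trans ?_
    rw [Real.rpow_neg_one, one_div]
    exact inv_anti₀ (by positivity) hK1
  have hclose := hK0 K ζ (v ζ) (Real.sqrt (⌊μ⌋₊ : ℕ) ^ (-10 : ℝ)) hKK h1 hm0 hm1 (hv ζ h1)
  have hG' := (hS1 (v ζ) (hv1 ζ)).2 K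
  have hpot' := hPG (bN χ f0 K (v ζ)) hG'.1 hG'.2.1 hG'.2.2 (fun n hn => BC2N_CkB ((min_le_right _ _).trans (min_le_left _ _)) (hclose n hn))
  refine hgood h1 hpot' ?_ μ φ (by linarith) (BC2N_floor μ hμ1) hE
  intro D' hD' hDU'
  have hG1 : ∀ n ≤ 2, CkB n (fun z => f0 z + rN χ ζ z) (|b 0| + |b 1| + |b 2|) := by
    intro n hn
    refine BC2N_CkB ?_ (hSζ.1.2.2 n)
    have g0 := le_abs_self (b 0)
    have g1 := le_abs_self (b 1)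
    have g2 := le_abs_self (b 2)
    have g3 := abs_nonneg (b 0)
    have g4 := abs_nonneg (b 1)
    have g5 := abs_nonneg (b 2)
    interval_cases n <;> linarith
  have hPC := hPCL' (fun z => f0 z + rN χ ζ z) (bN χ f0 K (v ζ)) (min 1 (min s (s' / Cp))) hSζ.1.1 hG'.1
    hm3.le (min_le_left _ _) hG1 hclose
  have hCs : Cp * min 1 (min s (s' / Cp)) ≤ s' := by
    calc Cp * min 1 (min s (s' / Cp)) ≤ Cp * (s' / Cp) := mul_le_mul_of_nonneg_left ((min_le_right _ _).trans (min_le_right _ _)) hCp0.le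
      _ = s' := by field_simp
  have hU' := hUW D' hD' (fun g n hn => by
    rw [hDU, hDU']
    exact (hPC g n hn).trans hCs)
  have hT : ((T0 - 1 + 1 : ℕ) : ℝ) = (T0 : ℝ) := by rw [Nat.sub_add_cancel hT0]
  show UWLN D' F h (e / 8) (v0 q1) (C1 q1) ((T0 - 1 + 1 : ℕ) : ℝ) (1 / ((q2 : ℝ) + 1))
  rw [hT]
  exact BC2N_UWL hq2.le hU'

end Pool.Agent.VN
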