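import Pool.Agent.helper84.VN.Spec4n

/-!
# MP_07c750_an, project VN, row CN4: comparison of `J`, `W` with the entries, jumps, time shift
-/

set_option autoImplicit false

open scoped MatrixGroups ContDiff Topology UpperHalfPlane ComplexConjugate ENNReal
open UpperHalfPlane MeasureTheory Filter Set

namespace Pool.Agent.VN

open Pool.Agent.RS Pool.Agent.VQ
open Pool.Agent.VQE (nm)

theorem CN4_ent (x : SL(2, ℝ)) : |x.1 0 0 - 1| ≤ nm x ∧ |x.1 0 1| ≤ nm x ∧ |x.1 1 0| ≤ nm x ∧ |x.1 1 1 - 1| ≤ nm x :=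
  ⟨(le_max_left _ _).trans (le_max_left _ _), (le_max_right _ _).trans (le_max_left _ _),
    (le_max_left _ _).trans (le_max_right _ _), (le_max_right _ _).trans (le_max_right _ _)⟩

theorem CN4_nm {x : SL(2, ℝ)} {η : ℝ} (h1 : |x.1 0 0 - 1| ≤ η) (h2 : |x.1 0 1| ≤ η) (h3 : |x.1 1 0| ≤ η) (h4 : |x.1 1 1 - 1| ≤ η) :
    nm x ≤ η := max_le (max_le h1 h2) (max_le h3 h4)

theorem CN4_m (x y : SL(2, ℝ)) (i j : Fin 2) : (x * y).1 i j = x.1 i 0 * y.1 0 j + x.1 i 1 * y.1 1 j := by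
  show (x.1 * y.1) i j = _
  rw [Matrix.mul_apply, Fin.sum_univ_two]

theorem CN4_inv (y : SL(2, ℝ)) : (y⁻¹).1 0 0 = y.1 1 1 ∧ (y⁻¹).1 0 1 = -y.1 0 1 ∧ (y⁻¹).1 1 0 = -y.1 1 0 ∧ (y⁻¹).1 1 1 = y.1 0 0 := by
  rw [Matrix.SpecialLinearGroup.coe_inv, Matrix.adjugate_fin_two]
  simp

theorem CN4_mul {u u' v v' P Q α β δ : ℝ} (h1 : |u| ≤ P) (h2 : |v'| ≤ Q) (h3 : |u' - u| ≤ α * δ) (h4 : |v' - v| ≤ β * δ) :
    |u' * v' - u * v| ≤ (α * Q + P * β) * δ := by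
  have h5 : u' * v' - u * v = (u' - u) * v' + u * (v' - v) := by ring
  have h6 : |(u' - u) * v'| ≤ α * δ * Q := by
    rw [abs_mul]
    exact mul_le_mul h3 h2 (abs_nonneg _) ((abs_nonneg _).trans h3)
  have h7 : |u * (v' - v)| ≤ P * (β * δ) := by
    rw [abs_mul]
    exact mul_le_mul h1 h4 (abs_nonneg _) ((abs_nonneg _).trans h1)
  rw [h5]
  calc |(u' - u) * v' + u * (v' - v)| ≤ |(u' - u) * v'| + |u * (v' - v)| := abs_add_le _ _
    _ ≤ (α * Q + P * β) * δ := by linarith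

theorem CN4_mb {x y X Y : ℝ} (hx : |x| ≤ X) (hy : |y| ≤ Y) : |x * y| ≤ X * Y := by
  rw [abs_mul]
  exact mul_le_mul hx hy (abs_nonneg y) ((abs_nonneg x).trans hx)

theorem CN4_W (U : ℍ → ℝ) (E : ℝ) (g x : SL(2, ℝ)) (hr : 0 < rho U E g) :
    WX U E g x = (x.1 0 1 - x.1 1 0) - n1 U g * ((rho U E g)⁻¹ * (rho U E g)⁻¹) / 2 * (x.1 0 1 + x.1 1 0) - kap U E g * (rho U E g)⁻¹ * (x.1 0 0 - x.1 1 1) := by
  unfold WX Wc
  field_simp

/-- bounds of the coefficients -/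
theorem CN4_q {C r : ℝ} (hC : 1 ≤ C) (h : 1 / C ≤ r) : 0 < r ∧ 0 < r⁻¹ ∧ r⁻¹ ≤ C ∧ |r⁻¹| ≤ C := by
  have hC0 : 0 < C := by linarith
  have h0 : 0 < 1 / C := by positivity
  have h1 : 0 < r := lt_of_lt_of_le h0 h
  have h2 : r⁻¹ ≤ C := by
    rw [inv_le_comm₀ h1 hC0, ← one_div]
    exact h
  exact ⟨h1, inv_pos.2 h1, h2, by rw [abs_of_pos (inv_pos.2 h1)]; exact h2⟩

/-- the first order part of `W` -/
theorem CN4_lin {C n κ q s f x X Y Z : ℝ} (hn : |n| ≤ C) (hκ : |κ| ≤ C) (hq : |q| ≤ C) (hf : |f| ≤ X) (hs : |s| ≤ Y) (hx : |x| ≤ Z) :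
    |f - n * (q * q) / 2 * s - κ * q * x| ≤ X + C * (C * C) / 2 * Y + C * C * Z := by
  have h1 : |n * (q * q)| ≤ C * (C * C) := CN4_mb hn (CN4_mb hq hq)
  have h2 : |n * (q * q) * s| ≤ C * (C * C) * Y := CN4_mb h1 hs
  have h3 : |κ * q * x| ≤ C * C * Z := CN4_mb (CN4_mb hκ hq) hx
  have h4 : n * (q * q) / 2 * s = n * (q * q) * s / 2 := by ring
  have h5 := abs_le.1 hf
  have h6 := abs_le.1 h2
  have h7 := abs_le.1 h3
  rw [h4, abs_le]
  constructor <;> linarith [h5.1, h5.2, h6.1, h6.2, h7.1, h7.2]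

theorem CN4_jump {C δ r r' κ κ' n n' s s' f f' x x' : ℝ} (hC : 1 ≤ C) (hδ : 0 ≤ δ) (hr : 1 / C ≤ r) (hr2 : r ≤ C) (hr' : 1 / C ≤ r') (hκ : |κ| ≤ C)
    (hn : |n| ≤ C) (hd1 : |r' - r| ≤ C * δ) (hd2 : |κ' - κ| ≤ C * δ) (hd3 : |n' - n| ≤ C * δ) (hs' : |s'| ≤ 4) (hx' : |x'| ≤ 4)
    (hss : |s' - s| ≤ 32 * δ) (hff : |f' - f| ≤ 32 * δ) (hxx : |x' - x| ≤ 32 * δ) :
    |r' * s' - r * s| ≤ 100 * C ^ 5 * δ ∧
    |(f' - n' * (r'⁻¹ * r'⁻¹) / 2 * s' - κ' * r'⁻¹ * x') - (f - n * (r⁻¹ * r⁻¹) / 2 * s - κ * r⁻¹ * x)| ≤ 100 * C ^ 5 * δ := by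
  obtain ⟨p1, p2, p3, p4⟩ := CN4_q hC hr
  obtain ⟨p1', p2', p3', p4'⟩ := CN4_q hC hr'
  have hC0 : 0 < C := by linarith
  have e1 : C ≤ C ^ 5 := by
    calc C = C ^ 1 := (pow_one C).symm
      _ ≤ C ^ 5 := pow_le_pow_right₀ hC (by norm_num)
  have e2 : C ^ 2 ≤ C ^ 5 := pow_le_pow_right₀ hC (by norm_num)
  have e3 : C ^ 3 ≤ C ^ 5 := pow_le_pow_right₀ hC (by norm_num)
  have e4 : C ^ 4 ≤ C ^ 5 := pow_le_pow_right₀ hC (by norm_num)
  have e0 : 1 ≤ C ^ 5 := one_le_pow₀ hC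
  have hr3 : |r| ≤ C := by rw [abs_of_pos p1]; exact hr2
  have hqq : |r'⁻¹ - r⁻¹| ≤ C ^ 3 * δ := by
    have h1 : r'⁻¹ - r⁻¹ = (r'⁻¹ * r⁻¹) * (-(r' - r)) := by
      field_simp
      ring
    rw [h1]
    have h2 : |r'⁻¹ * r⁻¹| ≤ C * C := CN4_mb p4' p4
    have h3 : |-(r' - r)| ≤ C * δ := by rw [abs_neg]; exact hd1
    calc |r'⁻¹ * r⁻¹ * (-(r' - r))| ≤ C * C * (C * δ) := CN4_mb h2 h3
      _ = C ^ 3 * δ := by ring
  constructor
  · have h1 := CN4_mul hr3 hs' hd1 hss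
    refine h1.trans ?_
    refine mul_le_mul_of_nonneg_right ?_ hδ
    linarith
  · have h1 : |r'⁻¹ * r'⁻¹ - r⁻¹ * r⁻¹| ≤ (C ^ 3 * C + C * C ^ 3) * δ := CN4_mul p4 p4' hqq hqq
    have h2 : |n' * (r'⁻¹ * r'⁻¹) - n * (r⁻¹ * r⁻¹)| ≤ (C * (C * C) + C * (C ^ 3 * C + C * C ^ 3)) * δ := CN4_mul hn (CN4_mb p4' p4') hd3 h1
    have h3 : |n * (r⁻¹ * r⁻¹)| ≤ C * (C * C) := CN4_mb hn (CN4_mb p4 p4)
    have h4 : |n' * (r'⁻¹ * r'⁻¹) * s' - n * (r⁻¹ * r⁻¹) * s| ≤ ((C * (C * C) + C * (C ^ 3 * C + C * C ^ 3)) * 4 + C * (C * C) * 32) * δ := CN4_mul h3 hs' h2 hss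
    have h5 : |κ' * r'⁻¹ - κ * r⁻¹| ≤ (C * C + C * C ^ 3) * δ := CN4_mul hκ p4' hd2 hqq
    have h6 : |κ * r⁻¹| ≤ C * C := CN4_mb hκ p4
    have h7 : |κ' * r'⁻¹ * x' - κ * r⁻¹ * x| ≤ ((C * C + C * C ^ 3) * 4 + C * C * 32) * δ := CN4_mul h6 hx' h5 hxx
    have h8 : (f' - n' * (r'⁻¹ * r'⁻¹) / 2 * s' - κ' * r'⁻¹ * x') - (f - n * (r⁻¹ * r⁻¹) / 2 * s - κ * r⁻¹ * x) =
        (f' - f) - (n' * (r'⁻¹ * r'⁻¹) * s' - n * (r⁻¹ * r⁻¹) * s) / 2 - (κ' * r'⁻¹ * x' - κ * r⁻¹ * x) := by ring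
    have h9 : (32 + ((C * (C * C) + C * (C ^ 3 * C + C * C ^ 3)) * 4 + C * (C * C) * 32) / 2 + ((C * C + C * C ^ 3) * 4 + C * C * 32)) * δ ≤ 100 * C ^ 5 * δ := by
      refine mul_le_mul_of_nonneg_right ?_ hδ
      nlinarith [e0, e1, e2, e3, e4]
    rw [h8]
    have i1 := abs_le.1 hff
    have i2 := abs_le.1 h4
    have i3 := abs_le.1 h7
    rw [abs_le]
    constructor <;> linarith [i1.1, i1.2, i2.1, i2.2, i3.1, i3.2]

/-- the entries of `p * q - q` and `q * p - q` -/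
theorem CN4_near (p q : SL(2, ℝ)) (α M : ℝ) (hp : nm p ≤ α) (hq : ∀ i j, |q.1 i j| ≤ M) (i j : Fin 2) :
    |(p * q).1 i j - q.1 i j| ≤ 2 * α * M ∧ |(q * p).1 i j - q.1 i j| ≤ 2 * α * M := by
  obtain ⟨a1, a2, a3, a4⟩ := CN4_ent p
  have hα : 0 ≤ α := (abs_nonneg _).trans (a1.trans hp)
  have key : ∀ s t u v : ℝ, |s| ≤ α → |t| ≤ α → |u| ≤ M → |v| ≤ M → |s * u + t * v| ≤ 2 * α * M := by
    intro s t u v h1 h2 h3 h4
    have h5 := CN4_mb h1 h3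
    have h6 := CN4_mb h2 h4
    calc |s * u + t * v| ≤ |s * u| + |t * v| := abs_add_le _ _
      _ ≤ 2 * α * M := by linarith
  rw [CN4_m, CN4_m]
  fin_cases i <;> fin_cases j
  · exact ⟨le_of_eq_of_le (by congr 1; simp; ring) (key (p.1 0 0 - 1) (p.1 0 1) (q.1 0 0) (q.1 1 0) (a1.trans hp) (a2.trans hp) (hq _ _) (hq _ _)),
      le_of_eq_of_le (by congr 1; simp; ring) (key (p.1 0 0 - 1) (p.1 1 0) (q.1 0 0) (q.1 0 1) (a1.trans hp) (a3.trans hp) (hq _ _) (hq _ _))⟩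
  · exact ⟨le_of_eq_of_le (by congr 1; simp; ring) (key (p.1 0 0 - 1) (p.1 0 1) (q.1 0 1) (q.1 1 1) (a1.trans hp) (a2.trans hp) (hq _ _) (hq _ _)),
      le_of_eq_of_le (by congr 1; simp; ring) (key (p.1 0 1) (p.1 1 1 - 1) (q.1 0 0) (q.1 0 1) (a2.trans hp) (a4.trans hp) (hq _ _) (hq _ _))⟩
  · exact ⟨le_of_eq_of_le (by congr 1; simp; ring) (key (p.1 1 0) (p.1 1 1 - 1) (q.1 0 0) (q.1 1 0) (a3.trans hp) (a4.trans hp) (hq _ _) (hq _ _)),
      le_of_eq_of_le (by congr 1; simp; ring) (key (p.1 0 0 - 1) (p.1 1 0) (q.1 1 0) (q.1 1 1) (a1.trans hp) (a3.trans hp) (hq _ _) (hq _ _))⟩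
  · exact ⟨le_of_eq_of_le (by congr 1; simp; ring) (key (p.1 1 0) (p.1 1 1 - 1) (q.1 0 1) (q.1 1 1) (a3.trans hp) (a4.trans hp) (hq _ _) (hq _ _)),
      le_of_eq_of_le (by congr 1; simp; ring) (key (p.1 0 1) (p.1 1 1 - 1) (q.1 1 0) (q.1 1 1) (a2.trans hp) (a4.trans hp) (hq _ _) (hq _ _))⟩

theorem CN4_two (x : SL(2, ℝ)) (h : nm x ≤ 1) (i j : Fin 2) : |x.1 i j| ≤ 2 := by
  obtain ⟨a1, a2, a3, a4⟩ := CN4_ent x
  have b1 := abs_le.1 (a1.trans h)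
  have b4 := abs_le.1 (a4.trans h)
  fin_cases i <;> fin_cases j
  · show |x.1 0 0| ≤ 2
    rw [abs_le]; constructor <;> linarith [b1.1, b1.2]
  · show |x.1 0 1| ≤ 2
    linarith
  · show |x.1 1 0| ≤ 2
    linarith
  · show |x.1 1 1| ≤ 2
    rw [abs_le]; constructor <;> linarith [b4.1, b4.2]

theorem CN4_inm (y : SL(2, ℝ)) : nm y⁻¹ ≤ nm y := by
  obtain ⟨a1, a2, a3, a4⟩ := CN4_ent y
  obtain ⟨b1, b2, b3, b4⟩ := CN4_inv y
  apply CN4_nm
  · rw [b1]; exact a4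
  · rw [b2, abs_neg]; exact a2
  · rw [b3, abs_neg]; exact a3
  · rw [b4]; exact a1

/-- the entries of `y⁻¹ x y' - x` -/
theorem CN4_conj (x y y' : SL(2, ℝ)) (hx : nm x ≤ 1) (hy' : nm y' ≤ 1) (i j : Fin 2) :
    |(y⁻¹ * x * y').1 i j - x.1 i j| ≤ 16 * (nm y + nm y') := by
  have hM : ∀ i j, |(x * y').1 i j| ≤ 8 := by
    intro i j
    rw [CN4_m]
    have h1 := CN4_mb (CN4_two x hx i 0) (CN4_two y' hy' 0 j)
    have h2 := CN4_mb (CN4_two x hx i 1) (CN4_two y' hy' 1 j)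
    refine (abs_add_le _ _).trans ?_
    linarith
  have h1 := (CN4_near y⁻¹ (x * y') (nm y) 8 (CN4_inm y) hM i j).1
  have h2 := (CN4_near y' x (nm y') 2 le_rfl (CN4_two x hx) i j).2
  have h3 : (y⁻¹ * x * y').1 i j - x.1 i j = ((y⁻¹ * (x * y')).1 i j - (x * y').1 i j) + ((x * y').1 i j - x.1 i j) := by
    rw [mul_assoc]
    ring
  have h0 : 0 ≤ nm y' := (abs_nonneg _).trans (CN4_ent y').1
  rw [h3]
  refine (abs_add_le _ _).trans ?_
  linarith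

/-- `nm` is controlled by the off-diagonal entries and the difference of the diagonal entries -/
theorem CN4_diag (x : SL(2, ℝ)) (h : nm x ≤ 1 / 10) : nm x ≤ |x.1 0 0 - x.1 1 1| + (|x.1 0 1| + |x.1 1 0|) := by
  obtain ⟨a1, a2, a3, a4⟩ := CN4_ent x
  have hdet := x.2
  rw [Matrix.det_fin_two] at hdet
  set a := x.1 0 0
  set b := x.1 0 1
  set c := x.1 1 0
  set d := x.1 1 1
  have h1 : |b * c| ≤ |b| * (1 / 10) := CN4_mb le_rfl (a3.trans h)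
  have h2 : |(a - 1) * (d - 1)| ≤ |a - 1| * (1 / 10) := CN4_mb le_rfl (a4.trans h)
  have h3 : |(d - 1) * (a - 1)| ≤ |d - 1| * (1 / 10) := CN4_mb le_rfl (a1.trans h)
  have e1 : 2 * (a - 1) = (a - d) + b * c - (a - 1) * (d - 1) := by linarith
  have e2 : 2 * (d - 1) = -(a - d) + b * c - (d - 1) * (a - 1) := by linarith
  have i1 : 2 * |a - 1| ≤ |a - d| + |b| * (1 / 10) + |a - 1| * (1 / 10) := by
    have j1 : 2 * |a - 1| = |2 * (a - 1)| := by rw [abs_mul, abs_of_pos (by norm_num : (0 : ℝ) < 2)]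
    rw [j1, e1]
    refine (abs_sub _ _).trans ?_
    have j2 := abs_add_le (a - d) (b * c)
    linarith
  have i2 : 2 * |d - 1| ≤ |a - d| + |b| * (1 / 10) + |d - 1| * (1 / 10) := by
    have j1 : 2 * |d - 1| = |2 * (d - 1)| := by rw [abs_mul, abs_of_pos (by norm_num : (0 : ℝ) < 2)]
    rw [j1, e2]
    refine (abs_sub _ _).trans ?_
    have j2 := abs_add_le (-(a - d)) (b * c)
    rw [abs_neg] at j2
    linarith
  have hb := abs_nonneg b
  have hc := abs_nonneg c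
  have had := abs_nonneg (a - d)
  apply CN4_nm
  · linarith
  · show |b| ≤ _
    linarith
  · show |c| ≤ _
    linarith
  · linarith

/-- the time shift -/
theorem CN4_shift {C K1 ν s e r κ n r' κ' a b c d t00 t01 t10 t11 : ℝ} (hC : 1 ≤ C) (hK : 1 ≤ K1) (hν : 0 ≤ ν) (he : 0 ≤ e) (hr : 1 / C ≤ r) (hr2 : r ≤ C)
    (hκ : |κ| ≤ C) (hn : |n| ≤ C) (hd1 : |r' - r| ≤ C * (ν + e)) (hd2 : |κ' - κ| ≤ C * (ν + e))
    (ha : |a - 1| ≤ ν) (hb : |b| ≤ ν) (hc : |c| ≤ ν) (hd : |d - 1| ≤ ν)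
    (h00 : |t00 - 1| ≤ K1 * |s|) (h01 : |t01| ≤ K1 * |s|) (h10 : |t10| ≤ K1 * |s|) (h11 : |t11 - 1| ≤ K1 * |s|)
    (g00 : |t00 - 1 - r' * s / 2| ≤ K1 * s ^ 2) (g11 : |t11 - 1 + r' * s / 2| ≤ K1 * s ^ 2) (g01 : |t01 - κ' * s / 2| ≤ K1 * s ^ 2)
    (g10 : |t10 + κ' * s / 2| ≤ K1 * s ^ 2) :
    |r * ((a * t01 + b * t11) + (c * t00 + d * t10)) - r * (b + c)| ≤ 100 * C ^ 5 * K1 * (|s| * (ν + |s| + e)) ∧
    |(((a * t01 + b * t11) - (c * t00 + d * t10)) - n * (r⁻¹ * r⁻¹) / 2 * ((a * t01 + b * t11) + (c * t00 + d * t10)) - κ * r⁻¹ * ((a * t00 + b * t10) - (c * t01 + d * t11))) -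
      ((b - c) - n * (r⁻¹ * r⁻¹) / 2 * (b + c) - κ * r⁻¹ * (a - d))| ≤ 100 * C ^ 5 * K1 * (|s| * (ν + |s| + e)) := by
  obtain ⟨p1, p2, p3, p4⟩ := CN4_q hC hr
  have hC0 : 0 < C := by linarith
  have hr3 : |r| ≤ C := by rw [abs_of_pos p1]; exact hr2
  have hs0 := abs_nonneg s
  have hs2 : s ^ 2 = |s| ^ 2 := (sq_abs s).symm
  have hδ0 : 0 ≤ |s| * (ν + |s| + e) := by positivity
  have m1 := CN4_mb ha h01
  have m2 := CN4_mb hd h10
  have m3 := CN4_mb hb h11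
  have m4 := CN4_mb hc h00
  have m5 := CN4_mb ha h00
  have m6 := CN4_mb hd h11
  have m7 := CN4_mb hb h10
  have m8 := CN4_mb hc h01
  have hb0 : 4 * (ν * (K1 * |s|)) + 2 * (K1 * s ^ 2) ≤ 4 * K1 * (|s| * (ν + |s| + e)) := by
    rw [hs2]
    have h1 : 0 ≤ K1 * |s| ^ 2 := by positivity
    have h2 : 0 ≤ K1 * (|s| * e) := by positivity
    nlinarith
  have A1 : |((a * t01 + b * t11) + (c * t00 + d * t10)) - (b + c)| ≤ 4 * K1 * (|s| * (ν + |s| + e)) := by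
    refine le_trans ?_ hb0
    have e1 : ((a * t01 + b * t11) + (c * t00 + d * t10)) - (b + c) =
        ((t01 - κ' * s / 2) + (t10 + κ' * s / 2)) + ((a - 1) * t01 + (d - 1) * t10 + b * (t11 - 1) + c * (t00 - 1)) := by ring
    rw [e1]
    have i1 := abs_le.1 m1
    have i2 := abs_le.1 m2
    have i3 := abs_le.1 m3
    have i4 := abs_le.1 m4
    have i5 := abs_le.1 g01
    have i6 := abs_le.1 g10
    rw [abs_le]
    constructor <;> linarith [i1.1, i1.2, i2.1, i2.2, i3.1, i3.2, i4.1, i4.2, i5.1, i5.2, i6.1, i6.2]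
  have A2 : |(((a * t01 + b * t11) - (c * t00 + d * t10)) - (b - c)) - κ' * s| ≤ 4 * K1 * (|s| * (ν + |s| + e)) := by
    refine le_trans ?_ hb0
    have e1 : (((a * t01 + b * t11) - (c * t00 + d * t10)) - (b - c)) - κ' * s =
        ((t01 - κ' * s / 2) - (t10 + κ' * s / 2)) + ((a - 1) * t01 - (d - 1) * t10 + b * (t11 - 1) - c * (t00 - 1)) := by ring
    rw [e1]
    have i1 := abs_le.1 m1
    have i2 := abs_le.1 m2
    have i3 := abs_le.1 m3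
    have i4 := abs_le.1 m4
    have i5 := abs_le.1 g01
    have i6 := abs_le.1 g10
    rw [abs_le]
    constructor <;> linarith [i1.1, i1.2, i2.1, i2.2, i3.1, i3.2, i4.1, i4.2, i5.1, i5.2, i6.1, i6.2]
  have A3 : |(((a * t00 + b * t10) - (c * t01 + d * t11)) - (a - d)) - r' * s| ≤ 4 * K1 * (|s| * (ν + |s| + e)) := by
    refine le_trans ?_ hb0
    have e1 : (((a * t00 + b * t10) - (c * t01 + d * t11)) - (a - d)) - r' * s =
        ((t00 - 1 - r' * s / 2) - (t11 - 1 + r' * s / 2)) + ((a - 1) * (t00 - 1) - (d - 1) * (t11 - 1) + b * t10 - c * t01) := by ring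
    rw [e1]
    have i1 := abs_le.1 m5
    have i2 := abs_le.1 m6
    have i3 := abs_le.1 m7
    have i4 := abs_le.1 m8
    have i5 := abs_le.1 g00
    have i6 := abs_le.1 g11
    rw [abs_le]
    constructor <;> linarith [i1.1, i1.2, i2.1, i2.2, i3.1, i3.2, i4.1, i4.2, i5.1, i5.2, i6.1, i6.2]
  have c1 : C ≤ C ^ 5 := by
    calc C = C ^ 1 := (pow_one C).symm
      _ ≤ C ^ 5 := pow_le_pow_right₀ hC (by norm_num)
  have c2 : C ^ 2 ≤ C ^ 5 := pow_le_pow_right₀ hC (by norm_num)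
  have c3 : C ^ 3 ≤ C ^ 5 := pow_le_pow_right₀ hC (by norm_num)
  have c0 : 1 ≤ C ^ 5 := one_le_pow₀ hC
  constructor
  · have e1 : r * ((a * t01 + b * t11) + (c * t00 + d * t10)) - r * (b + c) = r * (((a * t01 + b * t11) + (c * t00 + d * t10)) - (b + c)) := by ring
    rw [e1]
    refine (CN4_mb hr3 A1).trans ?_
    have h1 : C * (4 * K1 * (|s| * (ν + |s| + e))) = (4 * C) * (K1 * (|s| * (ν + |s| + e))) := by ring
    have h2 : 100 * C ^ 5 * K1 * (|s| * (ν + |s| + e)) = (100 * C ^ 5) * (K1 * (|s| * (ν + |s| + e))) := by ring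
    rw [h1, h2]
    exact mul_le_mul_of_nonneg_right (by linarith) (by positivity)
  · have e1 : (((a * t01 + b * t11) - (c * t00 + d * t10)) - n * (r⁻¹ * r⁻¹) / 2 * ((a * t01 + b * t11) + (c * t00 + d * t10)) - κ * r⁻¹ * ((a * t00 + b * t10) - (c * t01 + d * t11))) -
        ((b - c) - n * (r⁻¹ * r⁻¹) / 2 * (b + c) - κ * r⁻¹ * (a - d)) =
        (((((a * t01 + b * t11) - (c * t00 + d * t10)) - (b - c)) - κ' * s) - n * (r⁻¹ * r⁻¹) / 2 * (((a * t01 + b * t11) + (c * t00 + d * t10)) - (b + c)) -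
          κ * r⁻¹ * ((((a * t00 + b * t10) - (c * t01 + d * t11)) - (a - d)) - r' * s)) + s * ((κ' - κ) - κ * r⁻¹ * (r' - r)) := by
      have h1 : r⁻¹ * r = 1 := inv_mul_cancel₀ p1.ne'
      have h2 : s * ((κ' - κ) - κ * r⁻¹ * (r' - r)) = s * κ' - s * κ - s * κ * r⁻¹ * r' + s * κ * (r⁻¹ * r) := by ring
      rw [h2, h1]
      ring
    have B1 := CN4_lin hn hκ p4 A2 A1 A3
    have B2 : |κ * r⁻¹ * (r' - r)| ≤ C * C * (C * (ν + e)) := CN4_mb (CN4_mb hκ p4) hd1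
    have B3 : |s * ((κ' - κ) - κ * r⁻¹ * (r' - r))| ≤ |s| * (C * (ν + e) + C * C * (C * (ν + e))) := by
      refine CN4_mb le_rfl ?_
      refine (abs_sub _ _).trans ?_
      linarith
    have B4 : |s| * (C * (ν + e) + C * C * (C * (ν + e))) ≤ 2 * C ^ 5 * K1 * (|s| * (ν + |s| + e)) := by
      have h1 : |s| * (C * (ν + e) + C * C * (C * (ν + e))) = (C + C ^ 3) * (|s| * (ν + e)) := by ring
      have h2 : |s| * (ν + e) ≤ K1 * (|s| * (ν + |s| + e)) := by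
        have h3 : |s| * (ν + e) ≤ |s| * (ν + |s| + e) := mul_le_mul_of_nonneg_left (by linarith) hs0
        have h4 : 1 * (|s| * (ν + |s| + e)) ≤ K1 * (|s| * (ν + |s| + e)) := mul_le_mul_of_nonneg_right hK hδ0
        linarith
      rw [h1]
      calc (C + C ^ 3) * (|s| * (ν + e)) ≤ (2 * C ^ 5) * (K1 * (|s| * (ν + |s| + e))) := mul_le_mul (by linarith) h2 (by positivity) (by positivity)
        _ = 2 * C ^ 5 * K1 * (|s| * (ν + |s| + e)) := by ring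
    have B5 : 4 * K1 * (|s| * (ν + |s| + e)) + C * (C * C) / 2 * (4 * K1 * (|s| * (ν + |s| + e))) + C * C * (4 * K1 * (|s| * (ν + |s| + e))) ≤
        10 * C ^ 5 * K1 * (|s| * (ν + |s| + e)) := by
      have h1 : 4 * K1 * (|s| * (ν + |s| + e)) + C * (C * C) / 2 * (4 * K1 * (|s| * (ν + |s| + e))) + C * C * (4 * K1 * (|s| * (ν + |s| + e))) =
          (4 + 2 * C ^ 3 + 4 * C ^ 2) * (K1 * (|s| * (ν + |s| + e))) := by ring
      have h2 : 10 * C ^ 5 * K1 * (|s| * (ν + |s| + e)) = (10 * C ^ 5) * (K1 * (|s| * (ν + |s| + e))) := by ring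
      rw [h1, h2]
      exact mul_le_mul_of_nonneg_right (by linarith) (by positivity)
    have B6 : 0 ≤ C ^ 5 * K1 * (|s| * (ν + |s| + e)) := by positivity
    rw [e1]
    refine (abs_add_le _ _).trans ?_
    linarith

theorem CN4_proof (hSN4 : SN4_stmt) : CN4_stmt := by
  intro k C
  obtain ⟨K1, hK1, hSN⟩ := hSN4 k C
  by_cases hC : 1 ≤ C
  swap
  · refine ⟨1, le_rfl, ?_⟩
    intro D hF
    exact absurd hF.C1 hC
  have hC0 : 0 < C := by linarith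
  have c1 : C ≤ C ^ 5 := by
    calc C = C ^ 1 := (pow_one C).symm
      _ ≤ C ^ 5 := pow_le_pow_right₀ hC (by norm_num)
  have c2 : C ^ 2 ≤ C ^ 5 := pow_le_pow_right₀ hC (by norm_num)
  have c3 : C ^ 3 ≤ C ^ 5 := pow_le_pow_right₀ hC (by norm_num)
  have c4 : C ^ 4 ≤ C ^ 5 := pow_le_pow_right₀ hC (by norm_num)
  have c0 : 1 ≤ C ^ 5 := one_le_pow₀ hC
  have k1 : 100 * C ^ 5 ≤ 100 * C ^ 5 * K1 := le_mul_of_one_le_right (by positivity) hK1
  have k2 : 100 * K1 ≤ 100 * C ^ 5 * K1 := by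
    have h1 : 1 * (100 * K1) ≤ C ^ 5 * (100 * K1) := mul_le_mul_of_nonneg_right c0 (by linarith)
    linarith
  refine ⟨100 * C ^ 5 * K1, by linarith, ?_⟩
  intro D hF
  generalize hKK : 100 * C ^ 5 * K1 = K at k1 k2 ⊢
  have hK100 : 100 ≤ K := by linarith
  have hK0 : 0 < K := by linarith
  have hinv : 1 / K ≤ 1 / 100 := one_div_le_one_div_of_le (by norm_num) hK100
  have hinvK1 : 1 / K ≤ 1 / K1 := one_div_le_one_div_of_le (by linarith) (by linarith)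
  refine ⟨?_, ?_, ?_⟩
  · intro E g x hE hx
    obtain ⟨a1, a2, a3, a4⟩ := CN4_ent x
    have hν0 : 0 ≤ nm x := (abs_nonneg _).trans a1
    obtain ⟨hr1, hr2⟩ := hF.ro E g hE
    obtain ⟨p1, p2, p3, p4⟩ := CN4_q hC hr1
    have hr3 : |rho D.U E g| ≤ C := by rw [abs_of_pos p1]; exact hr2
    have hκ := hF.ka E g hE
    have hn := (hF.nb g).1
    have hW := CN4_W D.U E g x p1
    have hJ : JX D.U E g x = -(rho D.U E g * (x.1 0 1 + x.1 1 0)) := rfl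
    constructor
    · have h1 : |x.1 0 1 + x.1 1 0| ≤ 2 * nm x := (abs_add_le _ _).trans (by linarith)
      have h2 : |x.1 0 1 - x.1 1 0| ≤ 2 * nm x := (abs_sub _ _).trans (by linarith)
      have h3 : |x.1 0 0 - x.1 1 1| ≤ 2 * nm x := by
        have e1 : x.1 0 0 - x.1 1 1 = (x.1 0 0 - 1) - (x.1 1 1 - 1) := by ring
        rw [e1]
        exact (abs_sub _ _).trans (by linarith)
      have h4 := CN4_lin hn hκ p4 h2 h1 h3
      have h5 : |JX D.U E g x| ≤ C * (2 * nm x) := by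
        rw [hJ, abs_neg]
        exact CN4_mb hr3 h1
      unfold NX
      rw [hW]
      have h6 : C * (2 * nm x) + (2 * nm x + C * (C * C) / 2 * (2 * nm x) + C * C * (2 * nm x)) = (2 * C + 2 + C ^ 3 + 2 * C ^ 2) * nm x := by ring
      have h7 : (2 * C + 2 + C ^ 3 + 2 * C ^ 2) * nm x ≤ K * nm x := mul_le_mul_of_nonneg_right (by linarith) hν0
      linarith
    · have hq := abs_nonneg (JX D.U E g x)
      have hw := abs_nonneg (WX D.U E g x)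
      have hd0 := abs_nonneg (x.1 0 0 - x.1 1 1)
      have h1 : |x.1 0 1 + x.1 1 0| ≤ C * |JX D.U E g x| := by
        have e1 : x.1 0 1 + x.1 1 0 = (rho D.U E g)⁻¹ * -(JX D.U E g x) := by
          rw [hJ, neg_neg]
          field_simp
        rw [e1]
        exact CN4_mb p4 (by rw [abs_neg])
      have h2 : |x.1 0 1 - x.1 1 0| ≤ |WX D.U E g x| + C * (C * C) / 2 * (C * |JX D.U E g x|) + C * C * |x.1 0 0 - x.1 1 1| := by
        have e1 : x.1 0 1 - x.1 1 0 = WX D.U E g x - (-n1 D.U g) * ((rho D.U E g)⁻¹ * (rho D.U E g)⁻¹) / 2 * (x.1 0 1 + x.1 1 0) - (-kap D.U E g) * (rho D.U E g)⁻¹ * (x.1 0 0 - x.1 1 1) := by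
          rw [hW]
          ring
        rw [e1]
        exact CN4_lin (by rw [abs_neg]; exact hn) (by rw [abs_neg]; exact hκ) p4 le_rfl h1 le_rfl
      have h3 := CN4_diag x (hx.trans (hinv.trans (by norm_num)))
      have h4 : 2 * |x.1 0 1| ≤ |x.1 0 1 + x.1 1 0| + |x.1 0 1 - x.1 1 0| := by
        have e1 : 2 * |x.1 0 1| = |(x.1 0 1 + x.1 1 0) + (x.1 0 1 - x.1 1 0)| := by
          rw [show (x.1 0 1 + x.1 1 0) + (x.1 0 1 - x.1 1 0) = 2 * x.1 0 1 by ring, abs_mul, abs_of_pos (by norm_num : (0 : ℝ) < 2)]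
        rw [e1]
        exact abs_add_le _ _
      have h5 : 2 * |x.1 1 0| ≤ |x.1 0 1 + x.1 1 0| + |x.1 0 1 - x.1 1 0| := by
        have e1 : 2 * |x.1 1 0| = |(x.1 0 1 + x.1 1 0) - (x.1 0 1 - x.1 1 0)| := by
          rw [show (x.1 0 1 + x.1 1 0) - (x.1 0 1 - x.1 1 0) = 2 * x.1 1 0 by ring, abs_mul, abs_of_pos (by norm_num : (0 : ℝ) < 2)]
        rw [e1]
        exact abs_sub _ _
      have h6 : nm x ≤ (1 + C ^ 2) * |x.1 0 0 - x.1 1 1| + |WX D.U E g x| + (C + C ^ 4 / 2) * |JX D.U E g x| := by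
        have e1 : C * (C * C) / 2 * (C * |JX D.U E g x|) = C ^ 4 / 2 * |JX D.U E g x| := by ring
        have e2 : C * C * |x.1 0 0 - x.1 1 1| = C ^ 2 * |x.1 0 0 - x.1 1 1| := by ring
        rw [e1, e2] at h2
        linarith
      have i1 : (1 + C ^ 2) * |x.1 0 0 - x.1 1 1| ≤ K * |x.1 0 0 - x.1 1 1| := mul_le_mul_of_nonneg_right (by linarith) hd0
      have i2 : (C + C ^ 4 / 2) * |JX D.U E g x| ≤ K * |JX D.U E g x| := mul_le_mul_of_nonneg_right (by linarith) hq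
      have i3 : 1 * |WX D.U E g x| ≤ K * |WX D.U E g x| := mul_le_mul_of_nonneg_right (by linarith) hw
      have i4 : K * (NX D.U E g x + |x.1 0 0 - x.1 1 1|) = K * |JX D.U E g x| + K * |WX D.U E g x| + K * |x.1 0 0 - x.1 1 1| := by
        unfold NX
        ring
      linarith
  · intro E E1 g x y y' hE hE1 hx hy hy'
    obtain ⟨a1, a2, a3, a4⟩ := CN4_ent x
    have hν0 : 0 ≤ nm x := (abs_nonneg _).trans a1
    have hy0 : 0 ≤ nm y := (abs_nonneg _).trans (CN4_ent y).1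
    have hy'0 : 0 ≤ nm y' := (abs_nonneg _).trans (CN4_ent y').1
    have he0 := abs_nonneg (E1 - E)
    have hx1 : nm x ≤ 1 := hx.trans (hinv.trans (by norm_num))
    have hy1 : nm y' ≤ 1 := hy'.trans (hinv.trans (by norm_num))
    have hcj := CN4_conj x y y' hx1 hy1
    have z00 := hcj 0 0
    have z01 := hcj 0 1
    have z10 := hcj 1 0
    have z11 := hcj 1 1
    have w00 := abs_le.1 z00
    have w01 := abs_le.1 z01
    have w10 := abs_le.1 z10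
    have w11 := abs_le.1 z11
    have v00 := abs_le.1 (a1.trans (hx.trans hinv))
    have v01 := abs_le.1 (a2.trans (hx.trans hinv))
    have v10 := abs_le.1 (a3.trans (hx.trans hinv))
    have v11 := abs_le.1 (a4.trans (hx.trans hinv))
    have hy2 := hy.trans hinv
    have hy'2 := hy'.trans hinv
    obtain ⟨hr1, hr2⟩ := hF.ro E g hE
    obtain ⟨hr1', hr2'⟩ := hF.ro E1 (g * y) hE1
    have p1 := (CN4_q hC hr1).1
    have p1' := (CN4_q hC hr1').1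
    have hδ : 0 ≤ nm y + nm y' + |E1 - E| := by linarith
    have hCy : C * (nm y + |E1 - E|) ≤ C * (nm y + nm y' + |E1 - E|) := mul_le_mul_of_nonneg_left (by linarith) hC0.le
    have hCn : C * nm y ≤ C * (nm y + nm y' + |E1 - E|) := mul_le_mul_of_nonneg_left (by linarith) hC0.le
    have hj := CN4_jump (C := C) (δ := nm y + nm y' + |E1 - E|) (r := rho D.U E g) (r' := rho D.U E1 (g * y)) (κ := kap D.U E g) (κ' := kap D.U E1 (g * y))
      (n := n1 D.U g) (n' := n1 D.U (g * y)) (s := x.1 0 1 + x.1 1 0) (s' := (y⁻¹ * x * y').1 0 1 + (y⁻¹ * x * y').1 1 0)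
      (f := x.1 0 1 - x.1 1 0) (f' := (y⁻¹ * x * y').1 0 1 - (y⁻¹ * x * y').1 1 0)
      (x := x.1 0 0 - x.1 1 1) (x' := (y⁻¹ * x * y').1 0 0 - (y⁻¹ * x * y').1 1 1) hC hδ hr1 hr2 hr1' (hF.ka E g hE) (hF.nb g).1
      ((hF.lr E E1 g y hE hE1).trans hCy) ((hF.lk E E1 g y hE hE1).trans hCy) ((hF.ln g y).trans hCn)
      (by rw [abs_le]; constructor <;> linarith [w01.1, w01.2, w10.1, w10.2, v01.1, v01.2, v10.1, v10.2])
      (by rw [abs_le]; constructor <;> linarith [w00.1, w00.2, w11.1, w11.2, v00.1, v00.2, v11.1, v11.2])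
      (by rw [abs_le]; constructor <;> linarith [w01.1, w01.2, w10.1, w10.2])
      (by rw [abs_le]; constructor <;> linarith [w01.1, w01.2, w10.1, w10.2])
      (by rw [abs_le]; constructor <;> linarith [w00.1, w00.2, w11.1, w11.2])
    have hKδ : 100 * C ^ 5 * (nm y + nm y' + |E1 - E|) ≤ K * (nm y + nm y' + |E1 - E|) := mul_le_mul_of_nonneg_right k1 hδ
    refine ⟨?_, ?_, ?_⟩
    · have e1 : JX D.U E1 (g * y) (y⁻¹ * x * y') - JX D.U E g x =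
          -(rho D.U E1 (g * y) * ((y⁻¹ * x * y').1 0 1 + (y⁻¹ * x * y').1 1 0) - rho D.U E g * (x.1 0 1 + x.1 1 0)) := by
        unfold JX Jc
        ring
      rw [e1, abs_neg]
      exact hj.1.trans hKδ
    · rw [CN4_W D.U E g x p1, CN4_W D.U E1 (g * y) _ p1']
      exact hj.2.trans hKδ
    · have h1 : nm (y⁻¹ * x * y') ≤ nm x + 16 * (nm y + nm y') := by
        have i1 := abs_le.1 a1
        have i2 := abs_le.1 a2
        have i3 := abs_le.1 a3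
        have i4 := abs_le.1 a4
        apply CN4_nm
        · rw [abs_le]; constructor <;> linarith [w00.1, w00.2, i1.1, i1.2]
        · rw [abs_le]; constructor <;> linarith [w01.1, w01.2, i2.1, i2.2]
        · rw [abs_le]; constructor <;> linarith [w10.1, w10.2, i3.1, i3.2]
        · rw [abs_le]; constructor <;> linarith [w11.1, w11.2, i4.1, i4.2]
      have h2 : 100 * (nm x + nm y + nm y') ≤ K * (nm x + nm y + nm y') := mul_le_mul_of_nonneg_right hK100 (by linarith)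
      linarith
  · intro E E' s g x z hE hE' hx hs hz
    obtain ⟨a1, a2, a3, a4⟩ := CN4_ent x
    have hν0 : 0 ≤ nm x := (abs_nonneg _).trans a1
    have hx1 : nm x ≤ 1 := hx.trans (hinv.trans (by norm_num))
    set θ : SL(2, ℝ) := (g * x)⁻¹ * D.fl E' s (g * x) with hθ
    have hzθ : z = x * θ := by
      rw [hz, hθ]
      group
    obtain ⟨t1, t2, t3, t4, t5⟩ := hSN D hF E' s (g * x) θ hE' (hs.trans hinvK1) hθ
    obtain ⟨b1, b2, b3, b4⟩ := CN4_ent θ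
    obtain ⟨hr1, hr2⟩ := hF.ro E g hE
    have p1 := (CN4_q hC hr1).1
    have hsh := CN4_shift (C := C) (K1 := K1) (ν := nm x) (s := s) (e := |E' - E|) (r := rho D.U E g) (κ := kap D.U E g) (n := n1 D.U g)
      (r' := rho D.U E' (g * x)) (κ' := kap D.U E' (g * x)) hC hK1 hν0 (abs_nonneg _) hr1 hr2 (hF.ka E g hE) (hF.nb g).1
      (hF.lr E E' g x hE hE') (hF.lk E E' g x hE hE') a1 a2 a3 a4 (b1.trans t1) (b2.trans t1) (b3.trans t1) (b4.trans t1) t2 t3 t4 t5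
    rw [hKK] at hsh
    have z00 : z.1 0 0 = x.1 0 0 * θ.1 0 0 + x.1 0 1 * θ.1 1 0 := by rw [hzθ, CN4_m]
    have z01 : z.1 0 1 = x.1 0 0 * θ.1 0 1 + x.1 0 1 * θ.1 1 1 := by rw [hzθ, CN4_m]
    have z10 : z.1 1 0 = x.1 1 0 * θ.1 0 0 + x.1 1 1 * θ.1 1 0 := by rw [hzθ, CN4_m]
    have z11 : z.1 1 1 = x.1 1 0 * θ.1 0 1 + x.1 1 1 * θ.1 1 1 := by rw [hzθ, CN4_m]
    refine ⟨?_, ?_, ?_⟩
    · have e1 : JX D.U E g z - JX D.U E g x = -(rho D.U E g * (z.1 0 1 + z.1 1 0) - rho D.U E g * (x.1 0 1 + x.1 1 0)) := by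
        unfold JX Jc
        ring
      rw [e1, abs_neg, z01, z10]
      exact hsh.1
    · rw [CN4_W D.U E g x p1, CN4_W D.U E g z p1, z00, z01, z10, z11]
      exact hsh.2
    · have hnear : ∀ i j, |z.1 i j - x.1 i j| ≤ 4 * (K1 * |s|) := by
        intro i j
        have h1 := (CN4_near θ x (K1 * |s|) 2 t1 (CN4_two x hx1) i j).2
        rw [← hzθ] at h1
        linarith
      have w00 := abs_le.1 (hnear 0 0)
      have w01 := abs_le.1 (hnear 0 1)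
      have w10 := abs_le.1 (hnear 1 0)
      have w11 := abs_le.1 (hnear 1 1)
      have i1 := abs_le.1 a1
      have i2 := abs_le.1 a2
      have i3 := abs_le.1 a3
      have i4 := abs_le.1 a4
      have h1 : nm z ≤ nm x + 4 * (K1 * |s|) := by
        apply CN4_nm
        · rw [abs_le]; constructor <;> linarith [w00.1, w00.2, i1.1, i1.2]
        · rw [abs_le]; constructor <;> linarith [w01.1, w01.2, i2.1, i2.2]
        · rw [abs_le]; constructor <;> linarith [w10.1, w10.2, i3.1, i3.2]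
        · rw [abs_le]; constructor <;> linarith [w11.1, w11.2, i4.1, i4.2]
      have hs0 := abs_nonneg s
      have h2 : 1 * nm x ≤ K * nm x := mul_le_mul_of_nonneg_right (by linarith) hν0
      have h3 : (4 * K1) * |s| ≤ K * |s| := mul_le_mul_of_nonneg_right (by linarith) hs0
      linarith

end Pool.Agent.VN
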