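import Pool.Agent.helper74.VN.SpecA
import Pool.Agent.helper73.VQ.VDN

/-!
# Row `vn:NDN` (MP_07c750_an, project VN): derivatives of the potential along curves (copy of `vq:VDN`)
-/

set_option autoImplicit false

open scoped MatrixGroups ContDiff Topology UpperHalfPlane ComplexConjugate ENNReal
open UpperHalfPlane MeasureTheory Filter Set

namespace Pool.Agent.VN

open Pool.Agent.RS Pool.Agent.VQ

noncomputable section

theorem NDN_proof (hVCD : VQ.VCD_stmt) : NDN_stmt := by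
  intro Γ k B U hP γ t x b c E hE hγ
  have hU := hP.smooth
  have h0 : ‖(0 : ℂ)‖ < 2 := by simp
  have hc : HasDerivAt (fun s => VUB_e (γ s)) (VDN_d (γ t) x b c) t := by
    refine hasDerivAt_pi.2 fun i => hasDerivAt_pi.2 fun j => ?_
    exact hγ i j
  have hc2 : HasDerivAt (fun s => ((VUB_e (γ s), (0 : ℂ)) : (Fin 2 → Fin 2 → ℝ) × ℂ)) (VDN_d (γ t) x b c, 0) t :=
    hc.prodMk (hasDerivAt_const t 0)
  have hcd : cdi 0 = I := by
    have h2 := (hVCD.1 I).2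
    rwa [hVCD.2.2.1] at h2
  have hval : ∀ g : SL(2, ℝ), U (g • I) = VUB_P U (VUB_e g, 0) := by
    intro g
    rw [← VUB_Ug hVCD U g 0 h0]
    show U (g • I) = U (g • cdi 0)
    rw [hcd]
  have hn1 : ∀ g : SL(2, ℝ), n1 U g = fderiv ℝ (VUB_P U) (VUB_e g, 0) (0, 1) := fun g => VUB_d1 hVCD U hU g 0 h0 1
  have hn2 : ∀ g : SL(2, ℝ), n2 U g = fderiv ℝ (VUB_P U) (VUB_e g, 0) (0, Complex.I) := fun g => VUB_d1 hVCD U hU g 0 h0 Complex.I
  have D1 : HasDerivAt (fun s => U (γ s • I)) (n1 U (γ t) * x - n2 U (γ t) * (b + c)) t := by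
    have h2 : HasFDerivAt (VUB_P U) (fderiv ℝ (VUB_P U) (VUB_e (γ t), 0)) (VUB_e (γ t), 0) :=
      ((VUB_P_cd hVCD U hU (γ t) 0 h0).differentiableAt (by simp)).hasFDerivAt
    have h3 := h2.comp_hasDerivAt t hc2
    have h4 : fderiv ℝ (VUB_P U) (VUB_e (γ t), 0) (VDN_d (γ t) x b c, 0) = n1 U (γ t) * x - n2 U (γ t) * (b + c) := by
      rw [VDN_inv hVCD U hU (γ t) 0 h0, ← VUB_d1 hVCD U hU (γ t) 0 h0]
      have hw0 : VDN_w x b c 0 = (x : ℂ) - ((b + c : ℝ) : ℂ) * Complex.I := by simp [VDN_w]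
      rw [hw0, VDN_lin]
      show x * n1 U (γ t) - (b + c) * n2 U (γ t) = _
      ring
    rw [h4] at h3
    refine h3.congr_of_eventuallyEq (Eventually.of_forall fun s => ?_)
    exact hval (γ s)
  have D2 : ∀ u : ℂ, HasDerivAt (fun s => fderiv ℝ (VUB_P U) (VUB_e (γ s), 0) (0, u))
      (fderiv ℝ (fderiv ℝ (Ug U (γ t))) 0 u ((x : ℂ) - ((b + c : ℝ) : ℂ) * Complex.I) + fderiv ℝ (Ug U (γ t)) 0 (((b - c : ℝ) : ℂ) * (Complex.I * u))) t := by
    intro u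
    rw [← VDN_mixed hVCD U hU (γ t) x b c u]
    exact VDN_comp (VUB_P U) (fun s => (VUB_e (γ s), (0 : ℂ))) (VDN_d (γ t) x b c, 0) (0, u) t
      ((VUB_fP hVCD U hU (γ t) 0 h0).differentiableAt (by simp)) hc2
  have D3 : HasDerivAt (fun s => n1 U (γ s)) (hess U (γ t) 0 0 * x - hess U (γ t) 0 1 * (b + c) + (b - c) * n2 U (γ t)) t := by
    have h2 := D2 1
    have h3 : fderiv ℝ (fderiv ℝ (Ug U (γ t))) 0 1 ((x : ℂ) - ((b + c : ℝ) : ℂ) * Complex.I) + fderiv ℝ (Ug U (γ t)) 0 (((b - c : ℝ) : ℂ) * (Complex.I * 1)) =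
        hess U (γ t) 0 0 * x - hess U (γ t) 0 1 * (b + c) + (b - c) * n2 U (γ t) := by
      rw [VDN_lin, mul_one]
      have h4 : ((b - c : ℝ) : ℂ) * Complex.I = (b - c) • Complex.I := by rw [Complex.real_smul]
      rw [h4, map_smul, smul_eq_mul]
      show x * fderiv ℝ (fderiv ℝ (Ug U (γ t))) 0 1 1 - (b + c) * fderiv ℝ (fderiv ℝ (Ug U (γ t))) 0 1 Complex.I + (b - c) * n2 U (γ t) = _
      have e1 : hess U (γ t) 0 0 = fderiv ℝ (fderiv ℝ (Ug U (γ t))) 0 1 1 := by simp [hess, eb]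
      have e2 : hess U (γ t) 0 1 = fderiv ℝ (fderiv ℝ (Ug U (γ t))) 0 1 Complex.I := by simp [hess, eb]
      rw [e1, e2]
      ring
    rw [h3] at h2
    exact h2.congr_of_eventuallyEq (Eventually.of_forall fun s => hn1 (γ s))
  have D4 : HasDerivAt (fun s => n2 U (γ s)) (hess U (γ t) 1 0 * x - hess U (γ t) 1 1 * (b + c) - (b - c) * n1 U (γ t)) t := by
    have h2 := D2 Complex.I
    have h3 : fderiv ℝ (fderiv ℝ (Ug U (γ t))) 0 Complex.I ((x : ℂ) - ((b + c : ℝ) : ℂ) * Complex.I) +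
        fderiv ℝ (Ug U (γ t)) 0 (((b - c : ℝ) : ℂ) * (Complex.I * Complex.I)) =
        hess U (γ t) 1 0 * x - hess U (γ t) 1 1 * (b + c) - (b - c) * n1 U (γ t) := by
      rw [VDN_lin, Complex.I_mul_I]
      have h4 : ((b - c : ℝ) : ℂ) * (-1) = (-(b - c)) • (1 : ℂ) := by rw [Complex.real_smul]; push_cast; ring
      rw [h4, map_smul, smul_eq_mul]
      show x * fderiv ℝ (fderiv ℝ (Ug U (γ t))) 0 Complex.I 1 - (b + c) * fderiv ℝ (fderiv ℝ (Ug U (γ t))) 0 Complex.I Complex.I + -(b - c) * n1 U (γ t) = _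
      have e1 : hess U (γ t) 1 0 = fderiv ℝ (fderiv ℝ (Ug U (γ t))) 0 Complex.I 1 := by simp [hess, eb]
      have e2 : hess U (γ t) 1 1 = fderiv ℝ (fderiv ℝ (Ug U (γ t))) 0 Complex.I Complex.I := by simp [hess, eb]
      rw [e1, e2]
      ring
    rw [h3] at h2
    exact h2.congr_of_eventuallyEq (Eventually.of_forall fun s => hn2 (γ s))
  -- the speed
  have hpos : 0 < U (γ t • I) + 2 * E := by
    have h2 := hP.lo (γ t • I)
    have h3 := hP.kpos.1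
    have h5 := abs_le.1 hE
    linarith [h5.1]
  have D5 : HasDerivAt (fun s => rho U E (γ s)) ((n1 U (γ t) * x - n2 U (γ t) * (b + c)) / (2 * rho U E (γ t))) t := by
    exact (D1.add_const (2 * E)).sqrt hpos.ne'
  have hr : rho U E (γ t) ≠ 0 := (Real.sqrt_pos.2 hpos).ne'
  refine ⟨D1, D3, D4, D5, ?_⟩
  have h2 := D4.div (D5.const_mul 2) (mul_ne_zero two_ne_zero hr)
  refine HasDerivAt.congr_deriv h2 ?_
  show _ = (hess U (γ t) 1 0 * x - hess U (γ t) 1 1 * (b + c) - (b - c) * n1 U (γ t)) / (2 * rho U E (γ t)) -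
    n2 U (γ t) / (2 * rho U E (γ t)) * ((n1 U (γ t) * x - n2 U (γ t) * (b + c)) / (2 * rho U E (γ t))) / rho U E (γ t)
  field_simp

end

end Pool.Agent.VN
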