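import Pool.Agent.helper74.VN.SpecA
import Pool.Agent.helper59.VQ.VEG

/-!
# Row `vn:NEG` (MP_07c750_an, project VN): energy localisation for a fixed base point (copy of `vq:VEG`)
-/

set_option autoImplicit false

open scoped MatrixGroups ContDiff Topology UpperHalfPlane ComplexConjugate ENNReal
open UpperHalfPlane MeasureTheory Filter Set

namespace Pool.Agent.VN

open Pool.Agent.RS Pool.Agent.VQ

noncomputable section

/-- the numbers -/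
theorem NEG_num (T C R s a b c1 c2 x : ℝ) (hs0 : 0 ≤ s) (hs1 : s ≤ 1) (hx0 : 0 ≤ x)
    (hx : x ≤ 4 * a + 2 * T * (R ^ 2 * s) * b + 4 * C * (R * s) * c1 + 4 * C * (R * s) * c2 + 12 * C * (R ^ 2 * s ^ 2) * b) :
    x ^ 2 ≤ (5 * (16 + 4 * T ^ 2 + 160 * C ^ 2)) *
      (a ^ 2 + R ^ 4 * s ^ 2 * b ^ 2 + R ^ 2 * s ^ 2 * (c1 ^ 2 + c2 ^ 2)) := by
  have h1 := VEG_cs5 (4 * a) (2 * T * (R ^ 2 * s) * b) (4 * C * (R * s) * c1) (4 * C * (R * s) * c2) (12 * C * (R ^ 2 * s ^ 2) * b)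
  have h2 := pow_le_pow_left₀ hx0 hx 2
  refine (h2.trans h1).trans ?_
  have h3 : (12 * C * (R ^ 2 * s ^ 2) * b) ^ 2 ≤ 144 * C ^ 2 * (R ^ 4 * s ^ 2 * b ^ 2) := by
    have h4 : (12 * C * (R ^ 2 * s ^ 2) * b) ^ 2 = 144 * C ^ 2 * (R ^ 4 * s ^ 2 * b ^ 2) * s ^ 2 := by ring
    rw [h4]
    have h5 : s ^ 2 ≤ 1 := pow_le_one₀ hs0 hs1
    exact mul_le_of_le_one_right (by positivity) h5
  have e1 : (4 * a) ^ 2 = 16 * a ^ 2 := by ring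
  have e2 : (2 * T * (R ^ 2 * s) * b) ^ 2 = 4 * T ^ 2 * (R ^ 4 * s ^ 2 * b ^ 2) := by ring
  have e3 : (4 * C * (R * s) * c1) ^ 2 = 16 * C ^ 2 * (R ^ 2 * s ^ 2 * c1 ^ 2) := by ring
  have e4 : (4 * C * (R * s) * c2) ^ 2 = 16 * C ^ 2 * (R ^ 2 * s ^ 2 * c2 ^ 2) := by ring
  rw [e1, e2, e3, e4]
  have hA : 0 ≤ a ^ 2 := sq_nonneg a
  have hB : 0 ≤ R ^ 4 * s ^ 2 * b ^ 2 := by positivity
  have hC1 : 0 ≤ R ^ 2 * s ^ 2 * c1 ^ 2 := by positivity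
  have hC2 : 0 ≤ R ^ 2 * s ^ 2 * c2 ^ 2 := by positivity
  have hL : 0 ≤ T ^ 2 := sq_nonneg _
  have hCC : 0 ≤ C ^ 2 := sq_nonneg _
  nlinarith [mul_nonneg hL hA, mul_nonneg hCC hA, mul_nonneg hL hB, mul_nonneg hCC hB, mul_nonneg hL hC1, mul_nonneg hCC hC1,
    mul_nonneg hL hC2, mul_nonneg hCC hC2]

/-- the pointwise estimate -/
theorem NEG_pt (M : ℝ) (hM : 0 ≤ M) (ch : ℝ → ℝ) (hs : ContDiff ℝ ∞ ch) (hb : ∀ s, 0 ≤ ch s ∧ ch s ≤ 1) (C L R κ s c w : ℝ)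
    (hC : ∀ q : ℝ, 0 ≤ q → q ≤ 1 / 16 → κ * q ≤ 1 → |VEG_G1 ch R κ q| ≤ C * R ∧ |VEG_G2 ch R κ q| ≤ C * R ^ 2)
    (hC1 : 1 ≤ C) (hR : 1 ≤ R) (hκ : 0 ≤ κ) (hs0 : 0 ≤ s) (hs1 : s ≤ 1 / 4) (hs2 : κ * s ^ 2 ≤ 1) (hs3 : 1 ≤ R * s ^ 2)
    (p : ℂ → ℂ) (hp : ∀ v, ‖v‖ < 2 → ContDiffAt ℝ 2 p v) (v lp : ℂ) (hv : ‖v‖ ≤ s)
    (hlp : lp = -(((1 - ‖v‖ ^ 2 / 4) ^ 2 : ℝ) : ℂ) * (fderiv ℝ (fderiv ℝ p) v 1 1 + fderiv ℝ (fderiv ℝ p) v Complex.I Complex.I))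
    (hL : 0 ≤ L) (hcw : |w - c| ≤ L * s) (hc : |c| ≤ M) :
    ‖VEG_X R c (VEG_H ch R κ p) v‖ ^ 2 ≤ (5 * (16 + 4 * (2 * L + M) ^ 2 + 160 * C ^ 2)) *
      (‖lp - ((R ^ 2 * w : ℝ) : ℂ) * p v‖ ^ 2 + R ^ 4 * s ^ 2 * ‖p v‖ ^ 2 + R ^ 2 * s ^ 2 * (‖fderiv ℝ p v 1‖ ^ 2 + ‖fderiv ℝ p v Complex.I‖ ^ 2)) := by
  have hv2 : ‖v‖ < 2 := by linarith
  have hq0 : 0 ≤ ‖v‖ ^ 2 := by positivity
  have hqs : ‖v‖ ^ 2 ≤ s ^ 2 := pow_le_pow_left₀ (norm_nonneg _) hv 2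
  have hq1 : ‖v‖ ^ 2 ≤ 1 / 16 := by nlinarith
  have hκq : κ * ‖v‖ ^ 2 ≤ 1 := (mul_le_mul_of_nonneg_left hqs hκ).trans hs2
  obtain ⟨hG1, hG2⟩ := hC _ hq0 hq1 hκq
  have hR0 : 0 ≤ R := by linarith
  refine NEG_num (2 * L + M) C R s _ _ _ _ _ hs0 (by linarith) (norm_nonneg _) ?_
  rw [VEG_X_in ch hs R κ c p v hv2 hp]
  -- the weight
  set jj : ℝ := ((1 - ‖v‖ ^ 2 / 4) ^ 2)⁻¹ with hjj
  have hb0 : 63 / 64 ≤ 1 - ‖v‖ ^ 2 / 4 := by linarith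
  have hb1 : 1 - ‖v‖ ^ 2 / 4 ≤ 1 := by linarith
  have hm0 : (1 - ‖v‖ ^ 2 / 4) ^ 2 ≠ 0 := pow_ne_zero _ (by linarith)
  have hmlo : (3969 / 4096 : ℝ) ≤ (1 - ‖v‖ ^ 2 / 4) ^ 2 := by nlinarith
  have hjj0 : 0 ≤ jj := inv_nonneg.2 (by positivity)
  have hjj2 : jj ≤ 2 := by
    have := inv_anti₀ (by norm_num : (0 : ℝ) < 3969 / 4096) hmlo
    rw [hjj]
    linarith [this, (by norm_num : ((3969 / 4096 : ℝ))⁻¹ ≤ 2)]
  have hjj1 : |jj - 1| ≤ s := by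
    have h1 : jj - 1 = (1 - (1 - ‖v‖ ^ 2 / 4) ^ 2) * jj := by
      rw [hjj, sub_mul, mul_inv_cancel₀ hm0, one_mul]
    have h2 : 0 ≤ 1 - (1 - ‖v‖ ^ 2 / 4) ^ 2 := by nlinarith
    rw [h1, abs_of_nonneg (mul_nonneg h2 hjj0)]
    have h3 : 1 - (1 - ‖v‖ ^ 2 / 4) ^ 2 ≤ ‖v‖ ^ 2 / 2 := by nlinarith
    calc (1 - (1 - ‖v‖ ^ 2 / 4) ^ 2) * jj ≤ ‖v‖ ^ 2 / 2 * 2 := mul_le_mul h3 hjj2 hjj0 (by positivity)
      _ = ‖v‖ ^ 2 := by ring
      _ ≤ s ^ 2 := hqs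
      _ ≤ s := by nlinarith
  have hB2 : ‖VEG_B ch R κ v‖ ≤ 2 := by
    unfold VEG_B
    rw [Complex.norm_real]
    unfold VEG_G
    rw [norm_mul, norm_mul, Real.norm_eq_abs, Real.norm_eq_abs, Real.norm_eq_abs, Real.abs_exp, abs_of_nonneg (hb _).1,
      abs_of_nonneg (by positivity)]
    have h1 : Real.exp (-(R * ‖v‖ ^ 2 / 2)) ≤ 1 := Real.exp_le_one_iff.2 (by nlinarith)
    calc Real.exp (-(R * ‖v‖ ^ 2 / 2)) * ch (κ * ‖v‖ ^ 2) * ((1 - ‖v‖ ^ 2 / 4) ^ 2)⁻¹ ≤ 1 * 1 * 2 :=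
        mul_le_mul (mul_le_mul h1 (hb _).2 (hb _).1 (by norm_num)) hjj2 hjj0 (by norm_num)
      _ = 2 := by norm_num
  have hlap : -(fderiv ℝ (fderiv ℝ p) v 1 1 + fderiv ℝ (fderiv ℝ p) v Complex.I Complex.I) = (jj : ℂ) * lp := by
    rw [hlp, hjj]
    have h1 : (((1 - ‖v‖ ^ 2 / 4) ^ 2 : ℝ) : ℂ) ≠ 0 := Complex.ofReal_ne_zero.2 hm0
    rw [Complex.ofReal_inv, ← mul_assoc, mul_neg, inv_mul_cancel₀ h1]
    ring
  -- derivatives of the profile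
  have hin : ∀ e : ℂ, ‖e‖ = 1 → |inner ℝ v e| ≤ s := by
    intro e he
    calc |inner ℝ v e| ≤ ‖v‖ * ‖e‖ := abs_real_inner_le_norm v e
      _ ≤ s := by rw [he, mul_one]; exact hv
  have hD1 : ∀ e : ℂ, ‖e‖ = 1 → ‖fderiv ℝ (VEG_B ch R κ) v e‖ ≤ 2 * C * (R * s) := by
    intro e he
    rw [VEG_B_app ch hs R κ v hv2 e, Complex.norm_real, norm_mul, norm_mul, Real.norm_eq_abs, Real.norm_eq_abs, Real.norm_eq_abs]
    have h1 := hin e he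
    have h2 : |(2 : ℝ)| = 2 := abs_of_pos (by norm_num)
    rw [h2]
    calc |VEG_G1 ch R κ (‖v‖ ^ 2)| * (2 * |inner ℝ v e|) ≤ C * R * (2 * s) :=
        mul_le_mul hG1 (by linarith) (by positivity) (by positivity)
      _ = 2 * C * (R * s) := by ring
  have hD2 : ∀ e : ℂ, ‖e‖ = 1 → ‖fderiv ℝ (fun w => fderiv ℝ (VEG_B ch R κ) w e) v e‖ ≤ 6 * C * (R ^ 2 * s ^ 2) := by
    intro e he
    rw [VEG_B_app2 ch hs R κ v hv2 e, Complex.norm_real, Real.norm_eq_abs]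
    have h1 := hin e he
    have h2 : (2 * inner ℝ v e) ^ 2 ≤ 4 * s ^ 2 := by
      have : |inner ℝ v e| ^ 2 ≤ s ^ 2 := pow_le_pow_left₀ (abs_nonneg _) h1 2
      rw [sq_abs] at this
      nlinarith
    have h3 : inner ℝ e e = (1 : ℝ) := by
      rw [real_inner_self_eq_norm_sq, he]
      norm_num
    have h4 : |VEG_G2 ch R κ (‖v‖ ^ 2) * (2 * inner ℝ v e) ^ 2| ≤ C * R ^ 2 * (4 * s ^ 2) := by
      rw [abs_mul, abs_of_nonneg (sq_nonneg (2 * inner ℝ v e))]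
      exact mul_le_mul hG2 h2 (sq_nonneg _) (by positivity)
    have h5 : |VEG_G1 ch R κ (‖v‖ ^ 2) * (2 * inner ℝ e e)| ≤ C * R * 2 := by
      rw [h3, abs_mul]
      exact mul_le_mul hG1 (by norm_num) (abs_nonneg _) (by positivity)
    have h6 : R ≤ R ^ 2 * s ^ 2 := by nlinarith
    have h7 : C * R ≤ C * (R ^ 2 * s ^ 2) := mul_le_mul_of_nonneg_left h6 (by linarith)
    calc |VEG_G2 ch R κ (‖v‖ ^ 2) * (2 * inner ℝ v e) ^ 2 + VEG_G1 ch R κ (‖v‖ ^ 2) * (2 * inner ℝ e e)|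
        ≤ C * R ^ 2 * (4 * s ^ 2) + C * R * 2 := (abs_add_le _ _).trans (add_le_add h4 h5)
      _ ≤ 6 * C * (R ^ 2 * s ^ 2) := by linarith
  have hn1 : ‖(1 : ℂ)‖ = 1 := norm_one
  have hnI : ‖Complex.I‖ = 1 := Complex.norm_I
  have d1 := hD1 1 hn1
  have dI := hD1 Complex.I hnI
  have e1 := hD2 1 hn1
  have eI := hD2 Complex.I hnI
  rw [hlap]
  generalize fderiv ℝ (fun w => fderiv ℝ (VEG_B ch R κ) w 1) v 1 = B11 at *
  generalize fderiv ℝ (fun w => fderiv ℝ (VEG_B ch R κ) w Complex.I) v Complex.I = B22 at *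
  generalize fderiv ℝ (VEG_B ch R κ) v 1 = B1 at *
  generalize fderiv ℝ (VEG_B ch R κ) v Complex.I = B2 at *
  generalize fderiv ℝ p v 1 = p1 at *
  generalize fderiv ℝ p v Complex.I = p2 at *
  generalize VEG_B ch R κ v = B at *
  generalize p v = P at *
  have hdec : (jj : ℂ) * lp * B - 2 * (p1 * B1 + p2 * B2) - P * (B11 + B22) - ((R ^ 2 * c : ℝ) : ℂ) * (P * B) =
      (jj : ℂ) * (lp - ((R ^ 2 * w : ℝ) : ℂ) * P) * B + ((R ^ 2 * (jj * w - c) : ℝ) : ℂ) * (P * B) -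
        2 * (p1 * B1) - 2 * (p2 * B2) - P * (B11 + B22) := by
    push_cast
    ring
  rw [hdec]
  have t1 : ‖(jj : ℂ) * (lp - ((R ^ 2 * w : ℝ) : ℂ) * P) * B‖ ≤ 4 * ‖lp - ((R ^ 2 * w : ℝ) : ℂ) * P‖ := by
    rw [norm_mul, norm_mul, Complex.norm_real, Real.norm_eq_abs, abs_of_nonneg hjj0]
    calc jj * ‖lp - ((R ^ 2 * w : ℝ) : ℂ) * P‖ * ‖B‖ ≤ 2 * ‖lp - ((R ^ 2 * w : ℝ) : ℂ) * P‖ * 2 :=
        mul_le_mul (mul_le_mul_of_nonneg_right hjj2 (norm_nonneg _)) hB2 (norm_nonneg _) (by positivity)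
      _ = _ := by ring
  have hjw : |jj * w - c| ≤ (2 * L + M) * s := by
    have h1 : jj * w - c = jj * (w - c) + (jj - 1) * c := by ring
    rw [h1]
    calc |jj * (w - c) + (jj - 1) * c| ≤ |jj * (w - c)| + |(jj - 1) * c| := abs_add_le _ _
      _ ≤ 2 * (L * s) + s * M := by
        rw [abs_mul, abs_mul, abs_of_nonneg hjj0]
        exact add_le_add (mul_le_mul hjj2 hcw (abs_nonneg _) (by norm_num)) (mul_le_mul hjj1 hc (abs_nonneg _) hs0)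
      _ = _ := by ring
  have t2 : ‖((R ^ 2 * (jj * w - c) : ℝ) : ℂ) * (P * B)‖ ≤ 2 * (2 * L + M) * (R ^ 2 * s) * ‖P‖ := by
    rw [norm_mul, norm_mul, Complex.norm_real, Real.norm_eq_abs, abs_mul, abs_of_nonneg (by positivity : (0 : ℝ) ≤ R ^ 2)]
    calc R ^ 2 * |jj * w - c| * (‖P‖ * ‖B‖) ≤ R ^ 2 * ((2 * L + M) * s) * (‖P‖ * 2) :=
        mul_le_mul (mul_le_mul_of_nonneg_left hjw (by positivity)) (mul_le_mul_of_nonneg_left hB2 (norm_nonneg _)) (by positivity)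
          (by positivity)
      _ = _ := by ring
  have t3 : ∀ x y : ℂ, ‖y‖ ≤ 2 * C * (R * s) → ‖2 * (x * y)‖ ≤ 4 * C * (R * s) * ‖x‖ := by
    intro x y hy
    rw [norm_mul, norm_mul]
    have h2 : ‖(2 : ℂ)‖ = 2 := by simp
    rw [h2]
    have := mul_le_mul_of_nonneg_left hy (norm_nonneg x)
    linarith
  have t4 : ‖P * (B11 + B22)‖ ≤ 12 * C * (R ^ 2 * s ^ 2) * ‖P‖ := by
    rw [norm_mul]
    have h1 : ‖B11 + B22‖ ≤ 12 * C * (R ^ 2 * s ^ 2) := (norm_add_le _ _).trans (by linarith)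
    have := mul_le_mul_of_nonneg_left h1 (norm_nonneg P)
    linarith
  have t31 := t3 p1 B1 d1
  have t32 := t3 p2 B2 dI
  calc ‖(jj : ℂ) * (lp - ((R ^ 2 * w : ℝ) : ℂ) * P) * B + ((R ^ 2 * (jj * w - c) : ℝ) : ℂ) * (P * B) -
        2 * (p1 * B1) - 2 * (p2 * B2) - P * (B11 + B22)‖
      ≤ ‖(jj : ℂ) * (lp - ((R ^ 2 * w : ℝ) : ℂ) * P) * B + ((R ^ 2 * (jj * w - c) : ℝ) : ℂ) * (P * B) - 2 * (p1 * B1) - 2 * (p2 * B2)‖ +
        ‖P * (B11 + B22)‖ := norm_sub_le _ _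
    _ ≤ ‖(jj : ℂ) * (lp - ((R ^ 2 * w : ℝ) : ℂ) * P) * B + ((R ^ 2 * (jj * w - c) : ℝ) : ℂ) * (P * B) - 2 * (p1 * B1)‖ + ‖2 * (p2 * B2)‖ +
        ‖P * (B11 + B22)‖ := by gcongr; exact norm_sub_le _ _
    _ ≤ ‖(jj : ℂ) * (lp - ((R ^ 2 * w : ℝ) : ℂ) * P) * B + ((R ^ 2 * (jj * w - c) : ℝ) : ℂ) * (P * B)‖ + ‖2 * (p1 * B1)‖ + ‖2 * (p2 * B2)‖ +
        ‖P * (B11 + B22)‖ := by gcongr; exact norm_sub_le _ _
    _ ≤ ‖(jj : ℂ) * (lp - ((R ^ 2 * w : ℝ) : ℂ) * P) * B‖ + ‖((R ^ 2 * (jj * w - c) : ℝ) : ℂ) * (P * B)‖ + ‖2 * (p1 * B1)‖ + ‖2 * (p2 * B2)‖ +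
        ‖P * (B11 + B22)‖ := by gcongr; exact norm_add_le _ _
    _ ≤ _ := by linarith

theorem NEG_proof (hVCD : VQ.VCD_stmt) (hVQF : VQ.VQF_stmt) (hVPL : VQ.VPL_stmt) (hVPO : VQ.VPO_stmt) (hVLP : VQ.VLP_stmt) (hVBR : VQ.VBR_stmt) : NEG_stmt := by
  intro ch ζ k L hch hkk0 hkk1 hζ hζ8
  obtain ⟨R1, hR1, hF⟩ := hVQF ch ζ hch hζ hζ8
  obtain ⟨R2, hR2, hBR⟩ := hVBR ch ζ hch hζ hζ8
  obtain ⟨C, hC1, hC⟩ := VEG_G_bd ch hch.smooth hch.bd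
  set K : ℝ := 5 * (16 + 4 * (2 * L + (1 / k + 1)) ^ 2 + 160 * C ^ 2) with hKdef
  have hK0 : 0 ≤ K := by positivity
  obtain ⟨R3, hR3⟩ := ((tendsto_rpow_atTop hζ).eventually_ge_atTop (Real.pi ^ 2 * K)).exists_forall_of_atTop
  refine ⟨max (max R1 R2) (max R3 1), le_max_of_le_right (le_max_right _ _), ?_⟩
  intro R U φ g E0 hR hφ hU hU12 hUL hE0
  have hRR1 : R1 ≤ R := (le_max_of_le_left (le_max_left _ _)).trans hR
  have hRR2 : R2 ≤ R := (le_max_of_le_left (le_max_right _ _)).trans hR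
  have hRR3 : R3 ≤ R := (le_max_of_le_right (le_max_left _ _)).trans hR
  have hR11 : 1 ≤ R := (le_max_of_le_right (le_max_right _ _)).trans hR
  have hR0 : 0 < R := by linarith
  obtain ⟨-, -, -, hs14, -, -, -, -, hcRle⟩ := hBR R hRR2
  obtain ⟨hcdi, -, hcdI, -, -, -, -, -, hcont, -⟩ := hVCD
  have hcdi0 : cdi 0 = I := by
    have := (hcdi I).2
    rwa [hcdI] at this
  set s : ℝ := R ^ (-(1 / 2) + ζ) with hs
  set κ : ℝ := R ^ (1 - 2 * ζ) with hκ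
  have hs0 : 0 ≤ s := Real.rpow_nonneg hR0.le _
  have hκ0 : 0 < κ := Real.rpow_pos_of_pos hR0 _
  have hss : s ^ 2 = R ^ (-1 + 2 * ζ) := by
    rw [hs, ← Real.rpow_natCast, ← Real.rpow_mul hR0.le]
    congr 1
    push_cast
    ring
  have hκs : κ * s ^ 2 = 1 := by
    rw [hss, hκ, ← Real.rpow_add hR0, ← Real.rpow_zero R]
    congr 1
    ring
  have hRs : 1 ≤ R * s ^ 2 := by
    rw [hss]
    have h1 : R * R ^ (-1 + 2 * ζ) = R ^ (2 * ζ) := by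
      calc R * R ^ (-1 + 2 * ζ) = R ^ (1 : ℝ) * R ^ (-1 + 2 * ζ) := by rw [Real.rpow_one]
        _ = R ^ (2 * ζ) := by
          rw [← Real.rpow_add hR0]
          congr 1
          ring
    rw [h1]
    exact Real.one_le_rpow hR11 (by linarith)
  have hκR : κ ≤ R := by
    calc κ ≤ R ^ (1 : ℝ) := Real.rpow_le_rpow_of_exponent_le hR11 (by linarith)
      _ = R := Real.rpow_one R
  set u : ℝ := U (g • I) with hu
  set c : ℝ := u + 2 * E0 with hc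
  obtain ⟨hE1, hE2⟩ := abs_le.1 hE0
  obtain ⟨hu1, hu2⟩ := hU12 (g • I)
  have hk1k : 0 < 1 / k := by positivity
  have hc3 : |c| ≤ 1 / k + 1 := abs_le.2 ⟨by linarith, by linarith⟩
  have hL0 : 0 ≤ L := by
    have := hUL 1 (by simp)
    have h2 := (abs_nonneg _).trans this
    simpa using h2
  set p : ℂ → ℂ := fun w => φ (g • cdi w) with hpdef
  have hp : ∀ v, ‖v‖ < 2 → ContDiffAt ℝ 2 p v := fun v hv => (hVLP.1 φ g v hφ hv).1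
  obtain ⟨hHcd, hHc⟩ := VEG_H_cd ch hch.smooth hch.zero R κ s hκ0 hs0 hκs.ge (by linarith) p hp
  have hφc : Continuous φ := by
    have h1 : ContinuousOn (QU.onC φ) {w : ℂ | 0 < w.im} := hφ.continuousOn
    have h2 : ∀ z : ℍ, φ z = QU.onC φ (z : ℂ) := fun z => by
      show φ z = φ (ofComplex (z : ℂ))
      rw [ofComplex_apply]
    rw [funext h2]
    exact h1.comp_continuous UpperHalfPlane.continuous_coe fun z => z.im_pos
  -- the coefficients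
  have hQ : ∀ θ E : ℝ, QF U ch ζ R φ (g * kM θ, E) = (cR ch ζ R : ℂ) * Ft R (VEG_H ch R κ p)
      ((Real.sqrt (u + 2 * E) : ℂ) * Complex.exp (((2 * θ : ℝ) : ℂ) * Complex.I)) := fun θ E => hF R U φ g θ E hRR1 hφc
  set X : ℂ → ℂ := VEG_X R c (VEG_H ch R κ p) with hX
  have hXc : Continuous X := VEG_X_cont R c _ hHcd
  have hXs : HasCompactSupport X := VEG_X_supp R c _ hHc
  have hXft : ∀ ξ, Ft R X ξ = ((R ^ 2 * (‖ξ‖ ^ 2 - c) : ℝ) : ℂ) * Ft R (VEG_H ch R κ p) ξ := fun ξ => VEG_X_ft R c ξ _ hHcd hHc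
  have hXint : Integrable X := hXc.integrable_of_hasCompactSupport hXs
  have hXL : MemLp X 2 := hXc.memLp_of_hasCompactSupport hXs
  obtain ⟨hPc, hPl⟩ := hVPL R X hR0 hXint hXL
  set kq : ℝ := (cR ch ζ R / (2 * R ^ 2)) ^ 2 with hkq
  set f : ℂ → ENNReal := fun ξ => ENNReal.ofReal kq * ‖Ft R X ξ‖ₑ ^ 2 with hf
  have hfm : Measurable f := (hPc.measurable.enorm.pow_const 2).const_mul _
  have hLHS : ∫⁻ θ in Ioc 0 (2 * Real.pi), ∫⁻ E in {E : ℝ | -(u / 2) < E},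
      ENNReal.ofReal ((E - E0) ^ 2) * ‖QF U ch ζ R φ (g * kM θ, E)‖ₑ ^ 2 =
      ∫⁻ θ in Ioc 0 (2 * Real.pi), ∫⁻ E in {E : ℝ | -(u / 2) < E}, f ((Real.sqrt (u + 2 * E) : ℂ) * Complex.exp (((2 * θ : ℝ) : ℂ) * Complex.I)) := by
    refine lintegral_congr fun θ => ?_
    refine setLIntegral_congr_fun (measurableSet_lt measurable_const measurable_id) fun E hE => ?_
    have hE' : 0 ≤ u + 2 * E := by
      have : -(u / 2) < E := hE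
      linarith
    show ENNReal.ofReal ((E - E0) ^ 2) * ‖QF U ch ζ R φ (g * kM θ, E)‖ₑ ^ 2 = ENNReal.ofReal kq * ‖Ft R X _‖ₑ ^ 2
    rw [hQ, hXft]
    generalize hξ : (Real.sqrt (u + 2 * E) : ℂ) * Complex.exp (((2 * θ : ℝ) : ℂ) * Complex.I) = ξ
    have hn : ‖ξ‖ ^ 2 = u + 2 * E := by
      rw [← hξ, norm_mul, Complex.norm_exp_ofReal_mul_I, mul_one, Complex.norm_real, Real.norm_eq_abs, sq_abs, Real.sq_sqrt hE']
    rw [hn, VEG_enorm, VEG_enorm, ← ENNReal.ofReal_mul (sq_nonneg _), ← ENNReal.ofReal_mul (sq_nonneg _)]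
    congr 1
    rw [norm_mul, norm_mul, Complex.norm_real, Complex.norm_real, mul_pow, mul_pow, Real.norm_eq_abs, Real.norm_eq_abs, sq_abs, sq_abs, hc]
    field_simp
    ring
  rw [hLHS, hVPO u f (by linarith) hfm, lintegral_const_mul _ (hPc.measurable.enorm.pow_const 2), hPl,
    ← ENNReal.ofReal_mul (sq_nonneg _)]
  refine ENNReal.ofReal_le_ofReal ?_
  -- the integral of `X`
  have hsupp : ∫ v in Metric.closedBall (0 : ℂ) s, ‖X v‖ ^ 2 = ∫ v : ℂ, ‖X v‖ ^ 2 := by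
    refine setIntegral_eq_integral_of_forall_compl_eq_zero fun v hv => ?_
    rw [Metric.mem_closedBall, dist_zero_right, not_le] at hv
    rw [hX, VEG_X_out ch hch.zero R κ s c hκ0 hs0 hκs.ge p v hv]
    simp
  have hball : Metric.closedBall (0 : ℂ) s ⊆ Metric.ball (0 : ℂ) 2 := Metric.closedBall_subset_ball (by linarith)
  have hmb : ∀ v ∈ Metric.ball (0 : ℂ) 2, ‖v‖ < 2 := fun v hv => by rwa [Metric.mem_ball, dist_zero_right] at hv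
  have hcD1 : ∀ e : ℂ, ContinuousOn (fun v => fderiv ℝ p v e) (Metric.ball (0 : ℂ) 2) := fun e v hv =>
    ((((hp v (hmb v hv)).fderiv_right (m := 1) (by norm_num)).continuousAt).clm_apply continuousAt_const).continuousWithinAt
  have hcD2 : ∀ e : ℂ, ContinuousOn (fun v => fderiv ℝ (fderiv ℝ p) v e e) (Metric.ball (0 : ℂ) 2) := fun e v hv =>
    ((((((hp v (hmb v hv)).fderiv_right (m := 1) (by norm_num)).fderiv_right (m := 0) (by norm_num)).continuousAt).clm_apply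
      continuousAt_const).clm_apply continuousAt_const).continuousWithinAt
  have hcp : ContinuousOn p (Metric.ball (0 : ℂ) 2) := fun v hv => (hp v (hmb v hv)).continuousAt.continuousWithinAt
  have hcU : ContinuousOn (fun v => U (g • cdi v)) (Metric.ball (0 : ℂ) 2) := hU.comp_continuousOn (hcont g)
  have hcl : ContinuousOn (fun v => QU.lap φ (g • cdi v)) (Metric.ball (0 : ℂ) 2) := by
    have h1 : ContinuousOn (fun v : ℂ => -(((1 - ‖v‖ ^ 2 / 4) ^ 2 : ℝ) : ℂ) * (fderiv ℝ (fderiv ℝ p) v 1 1 +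
        fderiv ℝ (fderiv ℝ p) v Complex.I Complex.I)) (Metric.ball (0 : ℂ) 2) := by
      refine ContinuousOn.mul ?_ ((hcD2 1).add (hcD2 Complex.I))
      have h2 : Continuous (fun v : ℂ => -(((1 - ‖v‖ ^ 2 / 4) ^ 2 : ℝ) : ℂ)) := by fun_prop
      exact h2.continuousOn
    exact h1.congr fun v hv => (hVLP.1 φ g v hφ (hmb v hv)).2
  have hcZ : ContinuousOn (fun v => R ^ (-4 : ℝ) * ‖QU.lap φ (g • cdi v) - ((R ^ 2 * (U (g • cdi v) + 2 * E0) : ℝ) : ℂ) * φ (g • cdi v)‖ ^ 2 +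
      R ^ (-1 + 4 * ζ) * ‖φ (g • cdi v)‖ ^ 2 + R ^ (-3 + 4 * ζ) * (‖fderiv ℝ p v 1‖ ^ 2 + ‖fderiv ℝ p v Complex.I‖ ^ 2))
      (Metric.ball (0 : ℂ) 2) := by
    have h1 : ContinuousOn (fun v => ((R ^ 2 * (U (g • cdi v) + 2 * E0) : ℝ) : ℂ)) (Metric.ball (0 : ℂ) 2) :=
      Complex.continuous_ofReal.comp_continuousOn (continuousOn_const.mul (hcU.add continuousOn_const))
    exact ((continuousOn_const.mul ((hcl.sub (h1.mul hcp)).norm.pow 2)).add (continuousOn_const.mul (hcp.norm.pow 2))).add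
      (continuousOn_const.mul (((hcD1 1).norm.pow 2).add ((hcD1 Complex.I).norm.pow 2)))
  have hpt : ∀ v ∈ Metric.closedBall (0 : ℂ) s, kq * (2 * Real.pi / R) ^ 2 * ‖X v‖ ^ 2 ≤
      R ^ (1 + ζ) * (R ^ (-4 : ℝ) * ‖QU.lap φ (g • cdi v) - ((R ^ 2 * (U (g • cdi v) + 2 * E0) : ℝ) : ℂ) * φ (g • cdi v)‖ ^ 2 +
      R ^ (-1 + 4 * ζ) * ‖φ (g • cdi v)‖ ^ 2 + R ^ (-3 + 4 * ζ) * (‖fderiv ℝ p v 1‖ ^ 2 + ‖fderiv ℝ p v Complex.I‖ ^ 2)) := by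
    intro v hv
    rw [Metric.mem_closedBall, dist_zero_right] at hv
    have hv2 : ‖v‖ < 2 := by linarith
    have h1 := NEG_pt (1 / k + 1) (by linarith) ch hch.smooth hch.bd C L R κ s c (U (g • cdi v) + 2 * E0)
      (fun q hq0 hq1 hq2 => hC R κ q hR11 hκ0.le hκR hq0 hq1 hq2) hC1 hR11 hκ0.le hs0 hs14 hκs.le hRs p hp v (QU.lap φ (g • cdi v)) hv
      (hVLP.1 φ g v hφ hv2).2 hL0 (by
        have h2 := hUL v (by linarith)
        unfold Ug at h2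
        rw [hcdi0] at h2
        have h3 : U (g • cdi v) + 2 * E0 - c = U (g • cdi v) - U (g • I) := by
          rw [hc, hu]
          ring
        rw [h3]
        exact h2.trans (mul_le_mul_of_nonneg_left hv hL0)) hc3
    exact VEG_fin ζ R K (cR ch ζ R) _ _ _ _ hζ hR11 hK0 (hR3 R hRR3) (Real.sqrt_nonneg _) hcRle (sq_nonneg _) (sq_nonneg _)
      (by positivity) h1
  rw [← mul_assoc, ← hsupp, ← integral_const_mul, ← integral_const_mul]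
  refine setIntegral_mono_on ?_ ?_ measurableSet_closedBall hpt
  · exact ((continuous_const.mul (hXc.norm.pow 2)).continuousOn).integrableOn_compact (isCompact_closedBall _ _)
  · exact (continuousOn_const.mul (hcZ.mono hball)).integrableOn_compact (isCompact_closedBall _ _)

end

end Pool.Agent.VN
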