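import Pool.Agent.helper74.VN.SpecC

/-!
# MP_07c750, project VN, row NFB (copy of NFB, helper44): the norm of a family
-/

set_option autoImplicit false

open scoped MatrixGroups ContDiff Topology UpperHalfPlane ComplexConjugate ENNReal
open UpperHalfPlane MeasureTheory Filter Set

namespace Pool.Agent.VN

open Pool.Agent.RS Pool.Agent.VQ

noncomputable section

/-- Cauchy-Schwarz -/
theorem NFB_cs {X : Type} [MeasurableSpace X] (μ : Measure X) (f g : X → ℂ)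
    (hf : Integrable (fun x => ‖f x‖ ^ 2) μ) (hg : Integrable (fun x => ‖g x‖ ^ 2) μ)
    (hfm : AEStronglyMeasurable f μ) (hgm : AEStronglyMeasurable g μ) :
    ‖∫ x, f x * conj (g x) ∂μ‖ ^ 2 ≤ (∫ x, ‖f x‖ ^ 2 ∂μ) * ∫ x, ‖g x‖ ^ 2 ∂μ := by
  have hfg : Integrable (fun x => ‖f x‖ * ‖g x‖) μ := by
    refine ((hf.add hg).mono' (hfm.norm.mul hgm.norm) (Eventually.of_forall fun x => ?_))
    rw [Real.norm_of_nonneg (by positivity)]
    show ‖f x‖ * ‖g x‖ ≤ ‖f x‖ ^ 2 + ‖g x‖ ^ 2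
    nlinarith [sq_nonneg (‖f x‖ - ‖g x‖), sq_nonneg (‖f x‖), sq_nonneg (‖g x‖)]
  have h1 : ‖∫ x, f x * conj (g x) ∂μ‖ ≤ ∫ x, ‖f x‖ * ‖g x‖ ∂μ := by
    refine (norm_integral_le_integral_norm _).trans (le_of_eq ?_)
    simp only [norm_mul, RCLike.norm_conj]
  have h2 : ∀ s : ℝ, 0 ≤ (∫ x, ‖f x‖ ^ 2 ∂μ) * (s * s) + (-(2 * ∫ x, ‖f x‖ * ‖g x‖ ∂μ)) * s + ∫ x, ‖g x‖ ^ 2 ∂μ := by
    intro s
    have h3 : 0 ≤ ∫ x, (s * ‖f x‖ - ‖g x‖) ^ 2 ∂μ := integral_nonneg fun x => sq_nonneg _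
    have h4 : ∀ x, (s * ‖f x‖ - ‖g x‖) ^ 2 = s * s * ‖f x‖ ^ 2 - 2 * s * (‖f x‖ * ‖g x‖) + ‖g x‖ ^ 2 := fun x => by ring
    simp only [h4] at h3
    have i1 := hf.const_mul (s * s)
    have i2 := hfg.const_mul (2 * s)
    have h5 : ∫ x, (s * s * ‖f x‖ ^ 2 - 2 * s * (‖f x‖ * ‖g x‖) + ‖g x‖ ^ 2) ∂μ =
        s * s * (∫ x, ‖f x‖ ^ 2 ∂μ) - 2 * s * (∫ x, ‖f x‖ * ‖g x‖ ∂μ) + ∫ x, ‖g x‖ ^ 2 ∂μ := by
      have e1 := integral_add (i1.sub i2) hg
      have e2 := integral_sub i1 i2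
      simp only [Pi.sub_apply] at e1 e2
      rw [e1, e2, integral_const_mul, integral_const_mul]
    rw [h5] at h3
    linarith
  have h5 := discrim_le_zero h2
  rw [discrim] at h5
  have h6 : ‖∫ x, f x * conj (g x) ∂μ‖ ^ 2 ≤ (∫ x, ‖f x‖ * ‖g x‖ ∂μ) ^ 2 := by
    have := norm_nonneg (∫ x, f x * conj (g x) ∂μ)
    gcongr
  nlinarith

/-- functions of `FP` are square integrable on the window -/
theorem NFB_fp {Γ : Subgroup SL(2, ℝ)} {F : Set ℍ} (hF : MeasurableSet F) (R : ℝ)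
    {v : SL(2, ℝ) × ℝ → ℂ} (hv : FP Γ F v) : IntegrableOn (fun p => ‖v p‖ ^ 2) (PW F 2 R) mP := by
  obtain ⟨b, hb⟩ := hv.bdd
  obtain ⟨b', hb'⟩ := hv.supp
  have hPW : MeasurableSet (PW F 2 R) := (RS.A_GMG.1 F hF).1.prod measurableSet_Icc
  set S : Set (SL(2, ℝ) × ℝ) := dG (Metric.closedBall I b') ×ˢ Wi 2 R with hS
  have hSf : mP S ≠ ⊤ := by
    rw [hS, mP, Measure.prod_prod, (RS.A_GMG.1 _ Metric.isClosed_closedBall.measurableSet).2]
    refine ENNReal.mul_ne_top (isCompact_closedBall _ _).measure_lt_top.ne ?_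
    rw [Wi, Real.volume_Icc]
    exact ENNReal.ofReal_ne_top
  have h1 : IntegrableOn (fun p => ‖v p‖ ^ 2) S mP := by
    refine Measure.integrableOn_of_bounded (M := b ^ 2) hSf (hv.meas.norm.pow_const 2).aestronglyMeasurable
      (Eventually.of_forall fun p => ?_)
    rw [Real.norm_of_nonneg (by positivity)]
    have := hb p
    have h0 := norm_nonneg (v p)
    gcongr
  refine h1.of_forall_sdiff_eq_zero hPW fun p hp => ?_
  by_contra h0
  apply hp.2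
  have h2 : v p ≠ 0 := by
    intro h3
    apply h0
    rw [h3]
    simp
  exact ⟨hb' p hp.1.1 h2, hp.1.2⟩

/-- the norm as a lower integral -/
theorem NFB_nP {F : Set ℍ} {R : ℝ} {v : SL(2, ℝ) × ℝ → ℂ} (hv : Measurable v) :
    nP F 2 R v = (∫⁻ p in PW F 2 R, ‖v p‖ₑ ^ 2 ∂mP).toReal := by
  rw [nP, integral_eq_lintegral_of_nonneg_ae (Eventually.of_forall fun p => by positivity)
    (hv.norm.pow_const 2).aestronglyMeasurable]
  congr 1
  have h1 : ∀ p, ENNReal.ofReal (‖v p‖ ^ 2) = ‖v p‖ₑ ^ 2 := fun p => by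
    rw [ENNReal.ofReal_pow (norm_nonneg _), ofReal_norm]
  simp only [h1]

/-- the lower integral is finite -/
theorem NFB_fin {Γ : Subgroup SL(2, ℝ)} {F : Set ℍ} (hF : MeasurableSet F) (R : ℝ)
    {v : SL(2, ℝ) × ℝ → ℂ} (hv : FP Γ F v) : ∫⁻ p in PW F 2 R, ‖v p‖ₑ ^ 2 ∂mP ≠ ⊤ := by
  have h := (NFB_fp hF R hv).2
  rw [HasFiniteIntegral] at h
  have h1 : ∀ p, ‖‖v p‖ ^ 2‖ₑ = ‖v p‖ₑ ^ 2 := fun p => by
    rw [enorm_pow, enorm_norm]
  simp only [h1] at h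
  exact h.ne

/-- the action on phase space -/
@[reducible] def NFB_act (Γ : Subgroup SL(2, ℝ)) : MulAction Γ (SL(2, ℝ) × ℝ) where
  smul γ p := ((γ : SL(2, ℝ)) * p.1, p.2)
  one_smul p := by
    show (((1 : Γ) : SL(2, ℝ)) * p.1, p.2) = p
    rw [Subgroup.coe_one, one_mul]
  mul_smul a b p := by
    show (((a * b : Γ) : SL(2, ℝ)) * p.1, p.2) = ((a : SL(2, ℝ)) * ((b : SL(2, ℝ)) * p.1), p.2)
    rw [Subgroup.coe_mul, mul_assoc]

theorem NFB_win {k R : ℝ} (hk : 0 < k) (hR : 65536 ≤ R) (hRk : (2 / k) ^ (4 : ℕ) ≤ R) : 2 * R ^ (-(1 / 4) : ℝ) ≤ k ∧ ∀ η : ℝ, η ≤ 1 / 4 → R ^ (-(1 / 2) + η) ≤ 1 / 4 := by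
  have e1 : (16 : ℝ) ≤ R ^ (1 / 4 : ℝ) := by
    have e2 : (16 : ℝ) = (65536 : ℝ) ^ (1 / 4 : ℝ) := by
      rw [show (65536 : ℝ) = 16 ^ (4 : ℝ) by norm_num, ← Real.rpow_mul (by norm_num)]
      norm_num
    rw [e2]
    exact Real.rpow_le_rpow (by norm_num) hR (by norm_num)
  have e3 : R ^ (-(1 / 4) : ℝ) ≤ 1 / 16 := by
    rw [Real.rpow_neg (by linarith)]
    have e4 := inv_anti₀ (by norm_num) e1
    norm_num at e4 ⊢
    linarith
  have e5 : 2 / k ≤ R ^ (1 / 4 : ℝ) := by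
    have e2 : 2 / k = ((2 / k) ^ (4 : ℕ)) ^ (1 / 4 : ℝ) := by
      rw [← Real.rpow_natCast, ← Real.rpow_mul (by positivity)]
      norm_num
    rw [e2]
    exact Real.rpow_le_rpow (by positivity) hRk (by norm_num)
  refine ⟨?_, fun η hη => ?_⟩
  · have h0 : 0 < R ^ (1 / 4 : ℝ) := by linarith
    rw [Real.rpow_neg (by linarith), ← div_eq_mul_inv, div_le_iff₀ h0]
    have h1 := (div_le_iff₀ hk).1 e5
    linarith
  have e4 : R ^ (-(1 / 2) + η) ≤ R ^ (-(1 / 4) : ℝ) := Real.rpow_le_rpow_of_exponent_le (by linarith) (by linarith)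
  linarith

section fam

variable {Γ : Subgroup SL(2, ℝ)} {F : Set ℍ} {D : Dyn} {k c R t m : ℝ} {f : SL(2, ℝ) × ℝ → ℂ → ℂ}

/-- the packets cut off outside the window -/
def NFB_P (D : Dyn) (R t : ℝ) (f : SL(2, ℝ) × ℝ → ℂ → ℂ) (p : SL(2, ℝ) × ℝ) (z : ℍ) : ℂ :=
  (GW 2 R).indicator (fun p => pF D t f p z) p

theorem NFB_P_mem {p : SL(2, ℝ) × ℝ} (hp : p ∈ GW 2 R) (z : ℍ) : NFB_P D R t f p z = pF D t f p z :=
  indicator_of_mem hp _

theorem NFB_P_notMem {p : SL(2, ℝ) × ℝ} (hp : p ∉ GW 2 R) (z : ℍ) : NFB_P D R t f p z = 0 :=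
  indicator_of_notMem hp _

theorem NFB_GWm : MeasurableSet (GW 2 R) := MeasurableSet.univ.prod measurableSet_Icc

theorem NFB_P_meas (hw : 2 * R ^ (-(1 / 4) : ℝ) ≤ k)
    (hc : ContinuousOn (fun x : (SL(2, ℝ) × ℝ) × ℍ => pF D t f x.1 x.2) {x | |x.1.2| ≤ k}) :
    Measurable (fun x : (SL(2, ℝ) × ℝ) × ℍ => NFB_P D R t f x.1 x.2) := by
  classical
  have hs : MeasurableSet ((GW 2 R) ×ˢ (univ : Set ℍ)) := NFB_GWm.prod MeasurableSet.univ
  have h1 : ContinuousOn (fun x : (SL(2, ℝ) × ℝ) × ℍ => pF D t f x.1 x.2) ((GW 2 R) ×ˢ (univ : Set ℍ)) := by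
    refine hc.mono fun x hx => ?_
    have h2 := hx.1.2
    show |x.1.2| ≤ k
    exact (abs_le.2 h2).trans hw
  have h2 := h1.measurable_piecewise (g := fun _ => (0 : ℂ)) continuousOn_const hs
  have h3 : (fun x : (SL(2, ℝ) × ℝ) × ℍ => NFB_P D R t f x.1 x.2) =
      ((GW 2 R) ×ˢ (univ : Set ℍ)).piecewise (fun x => pF D t f x.1 x.2) (fun _ => (0 : ℂ)) := by
    funext x
    by_cases hx : x.1 ∈ GW 2 R
    · have hx' : x ∈ (GW 2 R) ×ˢ (univ : Set ℍ) := ⟨hx, mem_univ _⟩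
      rw [piecewise_eq_of_mem _ _ _ hx', NFB_P_mem hx]
    · have hx' : x ∉ (GW 2 R) ×ˢ (univ : Set ℍ) := fun h => hx h.1
      rw [piecewise_eq_of_notMem _ _ _ hx', NFB_P_notMem hx]
  rw [h3]
  exact h2

/-- the facts on a family which are used -/
structure NFB_R (Γ : Subgroup SL(2, ℝ)) (D : Dyn) (k c R t m : ℝ) (f : SL(2, ℝ) × ℝ → ℂ → ℂ) : Prop where
  win : 2 * R ^ (-(1 / 4) : ℝ) ≤ k
  meas : Measurable (fun x : (SL(2, ℝ) × ℝ) × ℍ => NFB_P D R t f x.1 x.2)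
  bd : ∀ p z, ‖NFB_P D R t f p z‖ ≤ m
  s1 : ∀ p z, NFB_P D R t f p z ≠ 0 → p ∈ GW 2 R ∧ dist (D.fl p.2 t p.1 • I : ℍ) z ≤ 1 ∧ dist (p.1 • I : ℍ) z ≤ c * |t| + 1
  inv : ∀ (γ : Γ) (p : SL(2, ℝ) × ℝ) (z : ℍ), NFB_P D R t f ((γ : SL(2, ℝ)) * p.1, p.2) (γ • z) = NFB_P D R t f p z

theorem NFB_mkR (hw : 2 * R ^ (-(1 / 4) : ℝ) ≤ k) (hm : 0 ≤ m)
    (hc : ContinuousOn (fun x : (SL(2, ℝ) × ℝ) × ℍ => pF D t f x.1 x.2) {x | |x.1.2| ≤ k})
    (hb : ∀ p ∈ GW 2 R, ∀ z, ‖pF D t f p z‖ ≤ m ∧ (pF D t f p z ≠ 0 → dist (D.fl p.2 t p.1 • I : ℍ) z ≤ 1 ∧ dist (p.1 • I : ℍ) z ≤ c * |t| + 1))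
    (hi : ∀ (γ : Γ) (p : SL(2, ℝ) × ℝ) (z : ℍ), |p.2| ≤ k → pF D t f ((γ : SL(2, ℝ)) * p.1, p.2) (γ • z) = pF D t f p z) :
    NFB_R Γ D k c R t m f where
  win := hw
  meas := NFB_P_meas hw hc
  bd p z := by
    by_cases hp : p ∈ GW 2 R
    · rw [NFB_P_mem hp]
      exact (hb p hp z).1
    · rw [NFB_P_notMem hp, norm_zero]
      exact hm
  s1 p z h := by
    by_cases hp : p ∈ GW 2 R
    · rw [NFB_P_mem hp] at h
      exact ⟨hp, (hb p hp z).2 h⟩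
    · rw [NFB_P_notMem hp] at h
      exact absurd rfl h
  inv γ p z := by
    by_cases hp : p ∈ GW 2 R
    · have hp' : ((γ : SL(2, ℝ)) * p.1, p.2) ∈ GW 2 R := ⟨mem_univ _, hp.2⟩
      rw [NFB_P_mem hp, NFB_P_mem hp']
      exact hi γ p z ((abs_le.2 hp.2).trans hw)
    · have hp' : ((γ : SL(2, ℝ)) * p.1, p.2) ∉ GW 2 R := fun h => hp ⟨mem_univ _, h.2⟩
      rw [NFB_P_notMem hp, NFB_P_notMem hp']

theorem NFB_comp1 (h : NFB_R Γ D k c R t m f) {X : Type} [MeasurableSpace X] {g : X → (SL(2, ℝ) × ℝ) × ℍ}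
    (hg : Measurable g) : Measurable ((fun x : (SL(2, ℝ) × ℝ) × ℍ => NFB_P D R t f x.1 x.2) ∘ g) := by
  have h2 := h.meas
  exact Measurable.comp h2 hg

theorem NFB_comp (h : NFB_R Γ D k c R t m f) {X : Type} [MeasurableSpace X] {g : X → SL(2, ℝ) × ℝ} {w : X → ℍ}
    (hg : Measurable g) (hk : Measurable w) : Measurable (fun x => NFB_P D R t f (g x) (w x)) := by
  have h1 : Measurable (fun x => (g x, w x)) := hg.prodMk hk
  have h2 := NFB_comp1 h h1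
  rw [Function.comp_def] at h2
  exact h2

/-- the Gram kernel -/
def NFB_K (D : Dyn) (R t : ℝ) (f : SL(2, ℝ) × ℝ → ℂ → ℂ) (x y : SL(2, ℝ) × ℝ) : ℝ≥0∞ :=
  ‖∫ z : ℍ, NFB_P D R t f y z * conj (NFB_P D R t f x z)‖ₑ

theorem NFB_K_meas (h : NFB_R Γ D k c R t m f) : Measurable (Function.uncurry (NFB_K D R t f)) := by
  have h1 : Measurable (fun x : ((SL(2, ℝ) × ℝ) × (SL(2, ℝ) × ℝ)) × ℍ =>
      NFB_P D R t f x.1.2 x.2 * conj (NFB_P D R t f x.1.1 x.2)) := by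
    have e1 : Measurable (fun x : ((SL(2, ℝ) × ℝ) × (SL(2, ℝ) × ℝ)) × ℍ => NFB_P D R t f x.1.2 x.2) :=
      NFB_comp h (measurable_snd.comp measurable_fst) measurable_snd
    have e2 : Measurable (fun x : ((SL(2, ℝ) × ℝ) × (SL(2, ℝ) × ℝ)) × ℍ => NFB_P D R t f x.1.1 x.2) :=
      NFB_comp h (measurable_fst.comp measurable_fst) measurable_snd
    exact e1.mul (Complex.continuous_conj.measurable.comp e2)
  have h2 := h1.stronglyMeasurable.integral_prod_right' (ν := (volume : Measure ℍ))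
  exact h2.measurable.enorm

theorem NFB_K_inv (h : NFB_R Γ D k c R t m f) (γ : Γ) (x y : SL(2, ℝ) × ℝ) :
    NFB_K D R t f ((γ : SL(2, ℝ)) * x.1, x.2) ((γ : SL(2, ℝ)) * y.1, y.2) = NFB_K D R t f x y := by
  unfold NFB_K
  congr 1
  rw [← QU.A_INV.2.2.2.1 ℂ (γ : SL(2, ℝ))]
  have e1 : ∀ z : ℍ, (γ : SL(2, ℝ)) • z = γ • z := fun z => rfl
  simp only [e1, h.inv]

/-- the coefficients of a synthesised function -/
theorem NFB_pair (h : NFB_R Γ D k c R t m f) {v : SL(2, ℝ) × ℝ → ℂ} (hv : Measurable v) {b : ℝ} (hb : ∀ p, ‖v p‖ ≤ b)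
    {p : SL(2, ℝ) × ℝ} (hp : p ∈ GW 2 R) :
    ‖aF D R t f (sF D R t f v) p‖ₑ ≤ ∫⁻ q, NFB_K D R t f p q * ‖v q‖ₑ ∂(mP.restrict (GW 2 R)) := by
  have : SigmaFinite mG := RS.A_GMG.2.2.1
  have : SigmaFinite mP := by unfold mP; infer_instance
  have hb0 : 0 ≤ b := (norm_nonneg _).trans (hb p)
  have hm0 : 0 ≤ m := (norm_nonneg _).trans (h.bd p I)
  set b' : ℝ := c * |t| + 1 + 1 + dist (D.fl p.2 t p.1 • I : ℍ) I with hb'
  set S : Set (ℍ × (SL(2, ℝ) × ℝ)) := Metric.closedBall (D.fl p.2 t p.1 • I : ℍ) 1 ×ˢ (dG (Metric.closedBall I b') ×ˢ Wi 2 R) with hS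
  set F2 : ℍ → SL(2, ℝ) × ℝ → ℂ := fun z q => v q * NFB_P D R t f q z * conj (NFB_P D R t f p z) with hF2
  have hF2m : Measurable (Function.uncurry F2) := by
    have e1 : Measurable (fun x : ℍ × (SL(2, ℝ) × ℝ) => NFB_P D R t f x.2 x.1) := NFB_comp h measurable_snd measurable_fst
    have e2 : Measurable (fun x : ℍ × (SL(2, ℝ) × ℝ) => NFB_P D R t f p x.1) := NFB_comp h measurable_const measurable_fst
    exact ((hv.comp measurable_snd).mul e1).mul (Complex.continuous_conj.measurable.comp e2)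
  have hSf : ((volume : Measure ℍ).prod (mP.restrict (GW 2 R))) S ≠ ⊤ := by
    rw [hS, Measure.prod_prod]
    refine ENNReal.mul_ne_top (isCompact_closedBall _ _).measure_lt_top.ne ?_
    refine ne_top_of_le_ne_top ?_ (Measure.restrict_apply_le _ _)
    rw [mP, Measure.prod_prod, (RS.A_GMG.1 _ Metric.isClosed_closedBall.measurableSet).2]
    refine ENNReal.mul_ne_top (isCompact_closedBall _ _).measure_lt_top.ne ?_
    rw [Wi, Real.volume_Icc]
    exact ENNReal.ofReal_ne_top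
  have hint : Integrable (Function.uncurry F2) ((volume : Measure ℍ).prod (mP.restrict (GW 2 R))) := by
    rw [← integrableOn_iff_integrable_of_support_subset (s := S)]
    · refine Measure.integrableOn_of_bounded (M := b * m * m) hSf hF2m.aestronglyMeasurable
        (Eventually.of_forall fun x => ?_)
      show ‖v x.2 * NFB_P D R t f x.2 x.1 * conj (NFB_P D R t f p x.1)‖ ≤ b * m * m
      rw [norm_mul, norm_mul, RCLike.norm_conj]
      have a1 := hb x.2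
      have a2 := h.bd x.2 x.1
      have a3 := h.bd p x.1
      gcongr
    · intro x hx
      have h1 : v x.2 * NFB_P D R t f x.2 x.1 * conj (NFB_P D R t f p x.1) ≠ 0 := hx
      have h2 : NFB_P D R t f x.2 x.1 ≠ 0 := fun h0 => h1 (by rw [h0, mul_zero, zero_mul])
      have h3 : NFB_P D R t f p x.1 ≠ 0 := fun h0 => h1 (by rw [h0, map_zero, mul_zero])
      obtain ⟨a1, -, a2⟩ := h.s1 _ _ h2
      obtain ⟨-, a3, -⟩ := h.s1 _ _ h3
      refine ⟨?_, ?_, a1.2⟩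
      · rw [Metric.mem_closedBall, dist_comm]
        exact a3
      · show (x.2.1 • I : ℍ) ∈ Metric.closedBall I b'
        rw [Metric.mem_closedBall]
        have t1 := dist_triangle (x.2.1 • I : ℍ) x.1 I
        have t2 := dist_triangle x.1 (D.fl p.2 t p.1 • I : ℍ) I
        rw [dist_comm x.1 (D.fl p.2 t p.1 • I : ℍ)] at t2
        linarith
  have e1 : aF D R t f (sF D R t f v) p = ∫ z : ℍ, ∫ q, F2 z q ∂(mP.restrict (GW 2 R)) := by
    rw [aF, indicator_of_mem hp]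
    congr 1
    funext z
    rw [sF, ← integral_mul_const]
    refine setIntegral_congr_fun NFB_GWm fun q hq => ?_
    simp only [hF2]
    rw [NFB_P_mem hq, NFB_P_mem hp]
  rw [e1, integral_integral_swap hint]
  refine (enorm_integral_le_lintegral_enorm _).trans (lintegral_mono fun q => ?_)
  have e2 : ∫ z : ℍ, F2 z q = v q * ∫ z : ℍ, NFB_P D R t f q z * conj (NFB_P D R t f p z) := by
    rw [← integral_const_mul]
    congr 1
    funext z
    simp only [hF2]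
    ring
  rw [e2, enorm_mul, mul_comm]
  exact le_rfl

end fam

theorem NFB_proof (hNFS : NFS_stmt) (hNFR : NFR_stmt) (hVSH : VSH_stmt) (hVDM : VDM_stmt) : NFB_stmt := by
  intro k hk
  obtain ⟨C0, hC0, HS⟩ := hNFS k hk
  obtain ⟨c, hc1, HR⟩ := hNFR k hk
  refine ⟨max C0 4, (by norm_num : (1 : ℝ) ≤ 4).trans (le_max_right _ _), fun η hη hCη => ?_⟩
  have hη1 : C0 * η ≤ 1 := (mul_le_mul_of_nonneg_right (le_max_left _ _) hη.le).trans hCη
  have hη2 : 4 * η ≤ 1 := (mul_le_mul_of_nonneg_right (le_max_right _ _) hη.le).trans hCη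
  obtain ⟨K, R0, hR0, H⟩ := HS η hη hη1
  refine ⟨K, max (max R0 65536) ((2 / k) ^ (4 : ℕ)), hR0.trans ((le_max_left _ _).trans (le_max_left _ _)), ?_⟩
  intro R m t Γ F B D f hR hD hok hm hf
  have hRa : R0 ≤ R := ((le_max_left _ _).trans (le_max_left _ _)).trans hR
  have hRb : 65536 ≤ R := ((le_max_right _ _).trans (le_max_left _ _)).trans hR
  have hRc : (2 / k) ^ (4 : ℕ) ≤ R := (le_max_right _ _).trans hR
  have hR1 : (1 : ℝ) ≤ R := by linarith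
  obtain ⟨hw1, hw2⟩ := NFB_win hk hRb hRc
  obtain ⟨hc, hbd, hinv, hsF, haF, hdual⟩ := HR Γ F B D K η m R t f hD hok hη (by linarith) hm (hw2 η (by linarith)) hw1 hR1 hf
  have hRR : NFB_R Γ D k c R t m f := NFB_mkR hw1 hm hc hbd hinv
  obtain ⟨hcG, hF, huni, -, hWW⟩ := hVDM Γ F hD
  obtain ⟨hsf, hmp, -, hres, hdG, -⟩ := hWW (Wi 2 R) measurableSet_Icc
  obtain ⟨hS1, hS2⟩ := H R m m t t Γ B D f f hRa hok hm hm hf hf
  set W : Measure (SL(2, ℝ) × ℝ) := mP.restrict (GW 2 R) with hWd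
  have hsf' : SigmaFinite W := hsf
  set a : ℝ≥0∞ := ENNReal.ofReal (m * m * R ^ (-3 + C0 * η)) with ha
  have hPWm : MeasurableSet (PW F 2 R) := hdG.prod measurableSet_Icc
  have hPG : PW F 2 R ⊆ GW 2 R := fun p hp => ⟨mem_univ _, hp.2⟩
  -- Schur
  have hK1 : ∀ x, ∫⁻ y, NFB_K D R t f x y ∂W ≤ a := by
    intro x
    by_cases hx : x ∈ GW 2 R
    · refine le_trans (le_of_eq ?_) (hS2 x hx)
      refine setLIntegral_congr_fun NFB_GWm fun y hy => ?_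
      simp only [NFB_K, NFB_P_mem hx, NFB_P_mem hy]
    · have : ∀ y, NFB_K D R t f x y = 0 := fun y => by
        simp [NFB_K, NFB_P_notMem hx]
      simp [this]
  have hK2 : ∀ y, ∫⁻ x, NFB_K D R t f x y ∂W ≤ a := by
    intro y
    by_cases hy : y ∈ GW 2 R
    · refine le_trans (le_of_eq ?_) (hS1 y hy)
      refine setLIntegral_congr_fun NFB_GWm fun x hx => ?_
      simp only [NFB_K, NFB_P_mem hx, NFB_P_mem hy]
    · have : ∀ x, NFB_K D R t f x y = 0 := fun x => by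
        simp [NFB_K, NFB_P_notMem hy]
      simp [this]
  have hresW : W.restrict (dG F ×ˢ univ) = mP.restrict (PW F 2 R) := hres
  have hSch : ∀ v, FP Γ F v → ∫⁻ x in PW F 2 R, (∫⁻ y, NFB_K D R t f x y * ‖v y‖ₑ ∂W) ^ 2 ∂mP ≤
      a * a * ∫⁻ y in PW F 2 R, ‖v y‖ₑ ^ 2 ∂mP := by
    intro v hv
    rw [← hresW]
    let _ := NFB_act Γ
    refine (hVSH Γ (SL(2, ℝ) × ℝ) (SL(2, ℝ) × ℝ) W W (dG F ×ˢ univ) (dG F ×ˢ univ) ?_ ?_ ?_ ?_ ?_ ?_
      (NFB_K D R t f) (NFB_K_meas hRR) ?_).2 a a (fun y => ‖v y‖ₑ) hv.meas.enorm ?_ hK1 hK2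
    · exact fun γ => hmp γ
    · exact fun γ => hmp γ
    · intro x
      obtain ⟨γ, h1, h2⟩ := huni (x.1 • I)
      refine ⟨γ, ⟨?_, mem_univ _⟩, fun γ' h' => h2 γ' ?_⟩
      · show (((γ : SL(2, ℝ)) * x.1) • I : ℍ) ∈ F
        rw [mul_smul]
        exact h1
      · have h3 : (((γ' : SL(2, ℝ)) * x.1) • I : ℍ) ∈ F := h'.1
        rw [mul_smul] at h3
        exact h3
    · intro x
      obtain ⟨γ, h1, h2⟩ := huni (x.1 • I)
      refine ⟨γ, ⟨?_, mem_univ _⟩, fun γ' h' => h2 γ' ?_⟩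
      · show (((γ : SL(2, ℝ)) * x.1) • I : ℍ) ∈ F
        rw [mul_smul]
        exact h1
      · have h3 : (((γ' : SL(2, ℝ)) * x.1) • I : ℍ) ∈ F := h'.1
        rw [mul_smul] at h3
        exact h3
    · exact hdG.prod MeasurableSet.univ
    · exact hdG.prod MeasurableSet.univ
    · exact fun γ x y => NFB_K_inv hRR γ x y
    · intro γ y
      show ‖v ((γ : SL(2, ℝ)) * y.1, y.2)‖ₑ = ‖v y‖ₑ
      rw [hv.inv]
  have hA0 : 0 ≤ m * m * R ^ (-3 + C0 * η) := by positivity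
  -- the first norm
  have h1 : ∀ v, FP Γ F v → nP F 2 R (aF D R t f (sF D R t f v)) ≤ (m * m * R ^ (-3 + C0 * η)) ^ 2 * nP F 2 R v := by
    intro v hv
    have hv2 : FP Γ F (aF D R t f (sF D R t f v)) := haF _ (hsF v hv)
    obtain ⟨b, hb⟩ := hv.bdd
    rw [NFB_nP hv2.meas, NFB_nP hv.meas, ← ENNReal.toReal_ofReal (sq_nonneg (m * m * R ^ (-3 + C0 * η))), ← ENNReal.toReal_mul]
    refine ENNReal.toReal_mono (ENNReal.mul_ne_top ENNReal.ofReal_ne_top (NFB_fin hF R hv)) ?_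
    have e1 : ENNReal.ofReal ((m * m * R ^ (-3 + C0 * η)) ^ 2) = a * a := by
      rw [sq, ENNReal.ofReal_mul hA0]
    rw [e1]
    refine le_trans ?_ (hSch v hv)
    refine setLIntegral_mono' hPWm fun p hp => ?_
    have := NFB_pair hRR hv.meas hb (hPG hp)
    gcongr
  have h2 : ∀ v, FP Γ F v → nn F (sF D R t f v) ≤ m * m * R ^ (-3 + C0 * η) * nP F 2 R v := by
    intro v hv
    have e1 := hsF v hv
    have e2 := haF _ e1
    have e3 := hdual _ v e1 hv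
    have e4 : ∫ z in F, sF D R t f v z * conj (sF D R t f v z) = ((nn F (sF D R t f v) : ℝ) : ℂ) := by
      rw [nn, ← integral_complex_ofReal]
      congr 1
      funext z
      rw [Complex.mul_conj, Complex.normSq_eq_norm_sq]
    rw [e4] at e3
    have e5 := NFB_cs (mP.restrict (PW F 2 R)) (aF D R t f (sF D R t f v)) v (NFB_fp hF R e2) (NFB_fp hF R hv)
      e2.meas.aestronglyMeasurable hv.meas.aestronglyMeasurable
    rw [e3, Complex.norm_real, Real.norm_eq_abs, sq_abs] at e5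
    have e6 : nn F (sF D R t f v) ^ 2 ≤ nP F 2 R (aF D R t f (sF D R t f v)) * nP F 2 R v := e5
    have e7 := h1 v hv
    have e8 : 0 ≤ nP F 2 R v := integral_nonneg fun p => by positivity
    refine le_of_sq_le_sq ?_ (by positivity)
    calc nn F (sF D R t f v) ^ 2 ≤ nP F 2 R (aF D R t f (sF D R t f v)) * nP F 2 R v := e6
      _ ≤ ((m * m * R ^ (-3 + C0 * η)) ^ 2 * nP F 2 R v) * nP F 2 R v := mul_le_mul_of_nonneg_right e7 e8
      _ = (m * m * R ^ (-3 + C0 * η) * nP F 2 R v) ^ 2 := by ring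
  have hexp : m * m * R ^ (-3 + C0 * η) ≤ (m * R ^ (-(3 / 2) + max C0 4 * η)) ^ 2 := by
    rw [mul_pow, sq m, ← Real.rpow_natCast (R ^ (-(3 / 2) + max C0 4 * η)) 2, ← Real.rpow_mul (by linarith)]
    refine mul_le_mul_of_nonneg_left ?_ (by positivity)
    refine Real.rpow_le_rpow_of_exponent_le hR1 ?_
    have g1 : C0 * η ≤ max C0 4 * η := mul_le_mul_of_nonneg_right (le_max_left _ _) hη.le
    have g2 : 0 ≤ max C0 4 * η := by positivity
    push_cast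
    linarith
  have h3 : ∀ v, FP Γ F v → nn F (sF D R t f v) ≤ (m * R ^ (-(3 / 2) + max C0 4 * η)) ^ 2 * nP F 2 R v := by
    intro v hv
    refine (h2 v hv).trans (mul_le_mul_of_nonneg_right hexp ?_)
    exact integral_nonneg fun p => by positivity
  refine ⟨h3, fun φ hφ => ?_⟩
  have hv := haF φ hφ
  have e1 := hsF _ hv
  have e3 := hdual φ _ hφ hv
  have e4 : ∫ p in PW F 2 R, aF D R t f φ p * conj (aF D R t f φ p) ∂mP = ((nP F 2 R (aF D R t f φ) : ℝ) : ℂ) := by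
    rw [nP, ← integral_complex_ofReal]
    congr 1
    funext z
    rw [Complex.mul_conj, Complex.normSq_eq_norm_sq]
  rw [e4] at e3
  have hFHi : ∀ ψ, FH Γ F ψ → IntegrableOn (fun z => ‖ψ z‖ ^ 2) F := by
    intro ψ hψ
    obtain ⟨b, hb⟩ := hψ.supp
    have g1 : IntegrableOn (fun z => ‖ψ z‖ ^ 2) (Metric.closedBall I b) :=
      (hψ.cont.norm.pow 2).continuousOn.integrableOn_compact (isCompact_closedBall _ _)
    refine g1.of_forall_sdiff_eq_zero hF fun z hz => ?_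
    by_contra h0
    refine hz.2 (hb z hz.1 fun h4 => h0 ?_)
    simp [h4]
  have e5 := NFB_cs (volume.restrict F) φ (sF D R t f (aF D R t f φ)) (hFHi _ hφ) (hFHi _ e1)
    hφ.cont.aestronglyMeasurable e1.cont.aestronglyMeasurable
  rw [← e3, Complex.norm_real, Real.norm_eq_abs, sq_abs] at e5
  have e6 : nP F 2 R (aF D R t f φ) ^ 2 ≤ nn F φ * nn F (sF D R t f (aF D R t f φ)) := e5
  have e7 := h3 _ hv
  have e8 : 0 ≤ nn F φ := integral_nonneg fun p => by positivity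
  have e9 : 0 ≤ nP F 2 R (aF D R t f φ) := integral_nonneg fun p => by positivity
  rcases e9.eq_or_lt with h0 | h0
  · rw [← h0]
    positivity
  · have e10 : nP F 2 R (aF D R t f φ) * nP F 2 R (aF D R t f φ) ≤
        ((m * R ^ (-(3 / 2) + max C0 4 * η)) ^ 2 * nn F φ) * nP F 2 R (aF D R t f φ) := by
      have := mul_le_mul_of_nonneg_left e7 e8
      nlinarith
    exact le_of_mul_le_mul_right e10 h0

end

end Pool.Agent.VN
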