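import Pool.Agent.helper55.VN.SpecD

/-!
# MP_07c750_an, project VN, row QDL: Lipschitz constants of the potential and of the perturbation
-/

set_option autoImplicit false

open scoped MatrixGroups ContDiff Topology UpperHalfPlane ComplexConjugate ENNReal
open UpperHalfPlane MeasureTheory Filter Set

namespace Pool.Agent.VN

open Pool.Agent.RS Pool.Agent.VQ
open Pool.Agent.RPQ (CEig mean VV IsOp)

/-- a point is `g • I` -/
theorem QDL_pt (z : ℍ) : ∃ g : SL(2, ℝ), g • (I : ℍ) = z := MulAction.exists_smul_eq SL(2, ℝ) I z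

theorem QDL_lip {U : ℍ → ℝ} {C : ℝ} (hC : 1 ≤ C) (hVCD : VCD_stmt) (hb : ∀ g : SL(2, ℝ), |U (g • I)| ≤ C)
    (hl : ∀ (g : SL(2, ℝ)) (v : ℂ), ‖v‖ ≤ 1 → |Ug U g v - Ug U g 0| ≤ C * ‖v‖) (z w : ℍ) : |U z - U w| ≤ 2 * C * dist z w := by
  obtain ⟨h1, h2, h3, -, -, h4, h5, -⟩ := hVCD
  have hd0 : 0 ≤ dist z w := dist_nonneg
  by_cases hd : dist z w ≤ 1
  · obtain ⟨g, hg⟩ := QDL_pt z
    have hv : ‖cd (g⁻¹ • w)‖ ≤ dist z w := by
      refine (h4 (g⁻¹ • w)).trans (le_of_eq ?_)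
      rw [← hg, ← dist_smul g (g⁻¹ • w) I, smul_inv_smul, dist_comm]
    have e1 : Ug U g (cd (g⁻¹ • w)) = U w := by
      unfold Ug
      rw [(h1 (g⁻¹ • w)).2, smul_inv_smul]
    have e2 : Ug U g 0 = U z := by
      unfold Ug
      have e3 : cdi 0 = I := by
        rw [← h3]
        exact (h1 I).2
      rw [e3, hg]
    have h6 := hl g (cd (g⁻¹ • w)) (hv.trans hd)
    rw [e1, e2, abs_sub_comm] at h6
    have h7 : C * ‖cd (g⁻¹ • w)‖ ≤ C * dist z w := mul_le_mul_of_nonneg_left hv (by linarith)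
    have h8 : 0 ≤ C * dist z w := by positivity
    linarith
  · rw [not_le] at hd
    obtain ⟨g, hg⟩ := QDL_pt z
    obtain ⟨g', hg'⟩ := QDL_pt w
    have h6 := hb g
    have h7 := hb g'
    rw [hg] at h6
    rw [hg'] at h7
    have h8 : 2 * C * 1 ≤ 2 * C * dist z w := mul_le_mul_of_nonneg_left hd.le (by linarith)
    have h9 := abs_sub (U z) (U w)
    linarith

theorem QDL_proof (hNUB : NUB_stmt) (hVCD : VCD_stmt) : QDL_stmt := by
  intro k hk
  obtain ⟨C, hC, H⟩ := hNUB k hk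
  have hC0 : 0 < C := by linarith
  -- the threshold
  have ht : ∃ R0 : ℝ, 1 ≤ R0 ∧ ∀ R : ℝ, R0 ≤ R → 2 * C ≤ R ^ (1 / 200 : ℝ) ∧ 3 * C ≤ R ^ (1 / 100 : ℝ) := by
    have h1 : Tendsto (fun R : ℝ => R ^ (1 / 200 : ℝ)) atTop atTop := tendsto_rpow_atTop (by norm_num)
    have h2 : Tendsto (fun R : ℝ => R ^ (1 / 100 : ℝ)) atTop atTop := tendsto_rpow_atTop (by norm_num)
    obtain ⟨R0, hR0⟩ := eventually_atTop.1 ((h1.eventually_ge_atTop (2 * C)).and (h2.eventually_ge_atTop (3 * C)))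
    exact ⟨max 1 R0, le_max_left _ _, fun R hR => hR0 R ((le_max_right _ _).trans hR)⟩
  obtain ⟨R0, hR0, ht⟩ := ht
  refine ⟨R0, hR0, ?_⟩
  intro Γ R B D f hR hok hf
  obtain ⟨hPV, hb, -, -, -, hl, -⟩ := H Γ B D.U hok.pot
  obtain ⟨t1, t2⟩ := ht R hR
  have hR1 : 1 ≤ R := hR0.trans hR
  have hRp : 0 < R := by linarith
  have hbd : ∀ z : ℍ, |D.U z| ≤ C := by
    intro z
    obtain ⟨g, hg⟩ := QDL_pt z
    have := (hb g).1
    rw [hg] at this
    exact this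
  have hlip := QDL_lip hC hVCD (fun g => (hb g).1) (fun g v hv => (hl g v hv).2)
  have hκ : R ^ (1 / 100 : ℝ) / R = R ^ (-(99 / 100) : ℝ) := by
    have h1 : R ^ (1 / 100 : ℝ) / R = R ^ (1 / 100 : ℝ) * R ^ (-1 : ℝ) := by rw [Real.rpow_neg_one, div_eq_mul_inv]
    rw [h1, ← Real.rpow_add hRp]
    norm_num
  have h99 : 0 < R ^ (-(99 / 100) : ℝ) := Real.rpow_pos_of_pos hRp _
  have h98 : 3 * C * R ^ (-(99 / 100) : ℝ) ≤ R ^ (-(98 / 100) : ℝ) := by
    have h1 : R ^ (-(98 / 100) : ℝ) = R ^ (1 / 100 : ℝ) * R ^ (-(99 / 100) : ℝ) := by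
      rw [← Real.rpow_add hRp]
      norm_num
    rw [h1]
    exact mul_le_mul_of_nonneg_right t2 h99.le
  have hfb : ∀ z, |f z| ≤ R ^ (-(99 / 100) : ℝ) := fun z => by rw [← hκ]; exact hf.bd z
  have hfl : ∀ z w, |f z - f w| ≤ R ^ (-(99 / 100) : ℝ) * dist z w := fun z w => by rw [← hκ]; exact hf.lip z w
  refine ⟨hPV.inv, ?_, ?_, ?_, ?_⟩
  · intro z w
    exact (hlip z w).trans (mul_le_mul_of_nonneg_right t1 dist_nonneg)
  · exact ⟨hPV.inv.1.mul hf.inv.1, fun γ z => by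
      show D.U (γ • z) * f (γ • z) = D.U z * f z
      rw [hPV.inv.2 γ z, hf.inv.2 γ z]⟩
  · intro z
    rw [abs_mul]
    have h1 : |D.U z| * |f z| ≤ C * R ^ (-(99 / 100) : ℝ) := mul_le_mul (hbd z) (hfb z) (abs_nonneg _) hC0.le
    have h2 : 0 ≤ C * R ^ (-(99 / 100) : ℝ) := by positivity
    linarith
  · intro z w
    have e1 : D.U z * f z - D.U w * f w = D.U z * (f z - f w) + f w * (D.U z - D.U w) := by ring
    rw [e1]
    have h1 : |D.U z * (f z - f w)| ≤ C * (R ^ (-(99 / 100) : ℝ) * dist z w) := by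
      rw [abs_mul]
      exact mul_le_mul (hbd z) (hfl z w) (abs_nonneg _) hC0.le
    have h2 : |f w * (D.U z - D.U w)| ≤ R ^ (-(99 / 100) : ℝ) * (2 * C * dist z w) := by
      rw [abs_mul]
      exact mul_le_mul (hfb w) (hlip z w) (abs_nonneg _) h99.le
    have h3 : 3 * C * R ^ (-(99 / 100) : ℝ) * dist z w ≤ R ^ (-(98 / 100) : ℝ) * dist z w := mul_le_mul_of_nonneg_right h98 dist_nonneg
    refine (abs_add_le _ _).trans ?_
    linarith

end Pool.Agent.VN
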